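import Mathlib
import Pool.Agent.Y114.TF.Defs

/-!
# Systems of `ℓ`-adic representations of the absolute Galois group of a number field:
# good places and multiplicative relations between the Frobenius eigenvalues
-/

set_option autoImplicit false

namespace Pool.Agent.Y114.GF

open NumberField IsDedekindDomain Polynomial Pool.Agent.Y114.TF

section places

variable {F : Type} [Field F] [NumberField F]

/-- The place `v` of `F` lies above the prime number `p`. -/
def Above (v : HeightOneSpectrum (𝓞 F)) (p : ℕ) : Prop := (p : 𝓞 F) ∈ v.asIdeal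

variable (F) in
/-- The prime number `p` is unramified in `F`. -/
def UnramifiedIn (p : ℕ) : Prop :=
  ∀ v : HeightOneSpectrum (𝓞 F), Above v p → (p : 𝓞 F) ∉ v.asIdeal ^ 2

/-- `q v` is the number of elements of the residue field of `v`. -/
noncomputable def q (v : HeightOneSpectrum (𝓞 F)) : ℕ := Ideal.absNorm v.asIdeal

/-- `Q` is a prime ideal above `v` of the ring of all algebraic integers in the algebraic
closure of `F`. -/
def PrimeOver (Q : Ideal (𝓞 (AlgebraicClosure F))) (v : HeightOneSpectrum (𝓞 F)) : Prop :=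
  Q.IsPrime ∧ Q.comap (algebraMap (𝓞 F) (𝓞 (AlgebraicClosure F))) = v.asIdeal

end places

/-- The complex roots of a rational polynomial. -/
noncomputable def complexRoots (f : ℚ[X]) : Finset ℂ := (f.aroots ℂ).toFinset

/-- At the prime `p` there are only trivial multiplicative relations between the roots of the
polynomials `P v i` (`v` a place above `p`): the product of the polynomials `P v i` (for fixed `v`)
has no multiple roots, no root is real, and in a relation (with exponents `k v a`, for `v` above `p`
and `a` a root of some `P v i`) the exponents of complex conjugate numbers are the same. -/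
def RelationFree {F : Type} [Field F] [NumberField F] {ι : Type} [Fintype ι]
    (P : HeightOneSpectrum (𝓞 F) → ι → ℚ[X]) (p : ℕ) : Prop :=
  (∀ v, Above v p → Squarefree (∏ i, P v i) ∧
    ∀ a ∈ complexRoots (∏ i, P v i), (starRingEnd ℂ) a ≠ a) ∧
  ∀ k : HeightOneSpectrum (𝓞 F) → ℂ → ℤ,
    ∏ᶠ (v : HeightOneSpectrum (𝓞 F)) (_ : Above v p),
      ∏ a ∈ complexRoots (∏ i, P v i), a ^ k v a = 1 →
    ∀ v, Above v p → ∀ a ∈ complexRoots (∏ i, P v i), k v a = k v ((starRingEnd ℂ) a)

section system

variable {F : Type} [Field F] [NumberField F] {ι : Type} {n : ι → ℕ}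

/-- The representations are continuous, and the similitude character is the power with exponent
`- w` of the cyclotomic character (as for the realizations of polarized motives of weight `w`). -/
structure IsSystem (R : Realizations n Gal(AlgebraicClosure F/F)) (w : ℕ) : Prop where
  continuous : ∀ (ℓ : ℕ) [Fact ℓ.Prime] (i : ι),
    Continuous fun g => LinearMap.toMatrix' (R.ρ ℓ i g)
  similitude : ∀ (ℓ : ℕ) [Fact ℓ.Prime] (g : Gal(AlgebraicClosure F/F)),
    R.χ ℓ g * ((cyclotomicCharacter (AlgebraicClosure F) ℓ g : ℤ_[ℓ]) : ℚ_[ℓ]) ^ w = 1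

/-- The representations `R.ρ ℓ i`, for `ℓ` not below `v`, are unramified at `v`, geometric Frobenius
elements at `v` have the characteristic polynomials `P i` (independent of `ℓ`), and the `P i` are
pure of weight `w`. -/
structure GoodAt (R : Realizations n Gal(AlgebraicClosure F/F)) (w : ℕ)
    (v : HeightOneSpectrum (𝓞 F)) (P : ι → ℚ[X]) : Prop where
  unramified : ∀ (ℓ : ℕ) [Fact ℓ.Prime], ¬ Above v ℓ → ∀ i Q, PrimeOver Q v →
    ∀ g : Gal(AlgebraicClosure F/F), (∀ x : 𝓞 (AlgebraicClosure F), g • x - x ∈ Q) → R.ρ ℓ i g = 1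
  frobenius : ∀ (ℓ : ℕ) [Fact ℓ.Prime], ¬ Above v ℓ → ∀ i Q, PrimeOver Q v →
    ∀ g : Gal(AlgebraicClosure F/F), (∀ x : 𝓞 (AlgebraicClosure F), g • x - x ^ q v ∈ Q) →
      (R.ρ ℓ i g⁻¹).charpoly = (P i).map (algebraMap ℚ ℚ_[ℓ])
  pure : ∀ i, ∀ a ∈ (P i).aroots ℂ, ‖a‖ ^ 2 = (q v : ℝ) ^ w

end system

end Pool.Agent.Y114.GF
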