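import Mathlib

/-!
# Semisimplicity under subgroups of finite index (Clifford, Maschke)
-/

set_option autoImplicit false
set_option linter.unusedSectionVars false

namespace Pool.Agent.Y114.GF

open Module

variable {k : Type*} [Field k] {V : Type*} [AddCommGroup V] [Module k V]
  {Γ : Type*} [Group Γ] (ρ : Representation k Γ V)

/-- `U` is stable under the elements of `Δ`. -/
def Stab (Δ : Subgroup Γ) (U : Submodule k V) : Prop := ∀ g ∈ Δ, ∀ u ∈ U, ρ g u ∈ U

/-- Every subspace stable under `Δ` has a stable complement. -/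
def Semi (Δ : Subgroup Γ) : Prop := ∀ U, Stab ρ Δ U → ∃ U', Stab ρ Δ U' ∧ IsCompl U U'

theorem rho_inv_mul (g : Γ) (v : V) : ρ g (ρ g⁻¹ v) = v := by
  rw [← Module.End.mul_apply, ← map_mul, mul_inv_cancel, map_one, Module.End.one_apply]

theorem rho_mul_inv (g : Γ) (v : V) : ρ g⁻¹ (ρ g v) = v := by
  rw [← Module.End.mul_apply, ← map_mul, inv_mul_cancel, map_one, Module.End.one_apply]

theorem Stab.sup {Δ : Subgroup Γ} {U U' : Submodule k V} (h : Stab ρ Δ U) (h' : Stab ρ Δ U') :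
    Stab ρ Δ (U ⊔ U') := by
  intro g hg u hu
  obtain ⟨a, ha, b, hb, rfl⟩ := Submodule.mem_sup.1 hu
  rw [map_add]
  exact Submodule.add_mem_sup (h g hg a ha) (h' g hg b hb)

theorem Stab.inf {Δ : Subgroup Γ} {U U' : Submodule k V} (h : Stab ρ Δ U) (h' : Stab ρ Δ U') :
    Stab ρ Δ (U ⊓ U') :=
  fun g hg u hu => ⟨h g hg u hu.1, h' g hg u hu.2⟩

/-- minimal stable subspaces -/
def IsMin (Δ : Subgroup Γ) (W : Submodule k V) : Prop :=
  W ≠ ⊥ ∧ Stab ρ Δ W ∧ ∀ W', Stab ρ Δ W' → W' ≤ W → W' = ⊥ ∨ W' = W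

variable [FiniteDimensional k V]

theorem exists_min (Δ : Subgroup Γ) (U : Submodule k V) (hU : Stab ρ Δ U) (hne : U ≠ ⊥) :
    ∃ W, IsMin ρ Δ W ∧ W ≤ U := by
  classical
  let P : ℕ → Prop := fun d => ∃ W : Submodule k V, W ≠ ⊥ ∧ Stab ρ Δ W ∧ W ≤ U ∧ finrank k W = d
  have hP : ∃ d, P d := ⟨_, U, hne, hU, le_rfl, rfl⟩
  obtain ⟨W, hW0, hWs, hWU, hWd⟩ := Nat.find_spec hP
  refine ⟨W, ⟨hW0, hWs, fun W' hW' hle => ?_⟩, hWU⟩
  by_cases h0 : W' = ⊥
  · exact Or.inl h0
  · right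
    apply Submodule.eq_of_le_of_finrank_le hle
    rw [hWd]
    exact Nat.find_min' hP ⟨W', h0, hW', hle.trans hWU, rfl⟩

/-- Clifford: semisimplicity under normal subgroups. -/
theorem semi_normal (h : Semi ρ (⊤ : Subgroup Γ)) (Δ : Subgroup Γ) [Δ.Normal] : Semi ρ Δ := by
  classical
  -- the socle
  let S : Submodule k V := ⨆ W : {W : Submodule k V // IsMin ρ Δ W}, W.1
  have hmap : ∀ g : Γ, ∀ W, IsMin ρ Δ W → IsMin ρ Δ (W.map (ρ g)) := by
    intro g W hW
    have hst : ∀ (g : Γ) (U : Submodule k V), Stab ρ Δ U → Stab ρ Δ (U.map (ρ g)) := by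
      rintro g U hU h hh _ ⟨w, hw, rfl⟩
      refine ⟨ρ (g⁻¹ * h * g) w, hU _ ?_ w hw, ?_⟩
      · have := (inferInstance : Δ.Normal).conj_mem h hh g⁻¹
        rwa [inv_inv] at this
      · rw [map_mul, map_mul, Module.End.mul_apply, Module.End.mul_apply, rho_inv_mul]
    have hback : ∀ (g : Γ) (U : Submodule k V), (U.map (ρ g)).map (ρ g⁻¹) = U := by
      intro g U
      rw [← Submodule.map_comp]
      have : (ρ g⁻¹) ∘ₗ (ρ g) = LinearMap.id := LinearMap.ext fun v => rho_mul_inv ρ g v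
      rw [this, Submodule.map_id]
    refine ⟨fun h0 => hW.1 ?_, hst g W hW.2.1, fun W' hW' hle => ?_⟩
    · have := hback g W
      rw [h0, Submodule.map_bot] at this
      exact this.symm
    · rcases hW.2.2 (W'.map (ρ g⁻¹)) (hst g⁻¹ W' hW') (by
        rw [← hback g W]
        exact Submodule.map_mono hle) with h1 | h1
      · left
        have := hback g⁻¹ W'
        rw [inv_inv, h1, Submodule.map_bot] at this
        exact this.symm
      · right
        have := hback g⁻¹ W'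
        rw [inv_inv, h1] at this
        exact this.symm
  have hS : Stab ρ ⊤ S := by
    intro g _ u hu
    have h1 : S.map (ρ g) ≤ S := by
      rw [Submodule.map_iSup]
      refine iSup_le fun W => ?_
      exact le_iSup (fun W : {W : Submodule k V // IsMin ρ Δ W} => W.1) ⟨_, hmap g W.1 W.2⟩
    exact h1 ⟨u, hu, rfl⟩
  have hStop : S = ⊤ := by
    obtain ⟨S', hS', hc⟩ := h S hS
    by_contra hne
    have h0 : S' ≠ ⊥ := by
      intro h0
      rw [h0] at hc
      exact hne (by simpa using hc.sup_eq_top)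
    obtain ⟨W, hW, hle⟩ := exists_min ρ Δ S' (fun g _ => hS' g trivial) h0
    have h1 : W ≤ S := le_iSup (fun W : {W : Submodule k V // IsMin ρ Δ W} => W.1) ⟨W, hW⟩
    have h2 : W ≤ S ⊓ S' := le_inf h1 hle
    rw [hc.inf_eq_bot, le_bot_iff] at h2
    exact hW.1 h2
  intro U hU
  -- a maximal stable subspace with zero intersection
  let P : ℕ → Prop := fun d => ∃ U' : Submodule k V, Stab ρ Δ U' ∧ U ⊓ U' = ⊥ ∧ finrank k U' = d
  have hP0 : P 0 := ⟨⊥, fun g _ u hu => by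
    rw [Submodule.mem_bot] at hu ⊢
    rw [hu, map_zero], inf_bot_eq _, finrank_bot k V⟩
  let d := Nat.findGreatest P (finrank k V)
  have hd : P d := Nat.findGreatest_spec (Nat.zero_le _) hP0
  obtain ⟨U', hU', hinf, hdim⟩ := hd
  refine ⟨U', hU', ?_⟩
  rw [isCompl_iff, disjoint_iff, codisjoint_iff]
  refine ⟨hinf, ?_⟩
  by_contra hne
  -- a minimal subspace outside
  obtain ⟨W, hW, hnle⟩ : ∃ W, IsMin ρ Δ W ∧ ¬ W ≤ U ⊔ U' := by
    by_contra hcon
    push Not at hcon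
    apply hne
    rw [← top_le_iff, ← hStop]
    exact iSup_le fun W => hcon W.1 W.2
  have hsup : Stab ρ Δ (U ⊔ U') := hU.sup ρ hU'
  have h1 : W ⊓ (U ⊔ U') = ⊥ := by
    rcases hW.2.2 _ (hW.2.1.inf ρ hsup) inf_le_left with h2 | h2
    · exact h2
    · exact absurd (h2 ▸ inf_le_right) hnle
  have h2 : U ⊓ (U' ⊔ W) = ⊥ := by
    rw [Submodule.eq_bot_iff]
    rintro x ⟨hx, hx'⟩
    obtain ⟨a, ha, b, hb, rfl⟩ := Submodule.mem_sup.1 hx'
    have hb' : b ∈ W ⊓ (U ⊔ U') := by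
      refine ⟨hb, ?_⟩
      have : b = (a + b) - a := by abel
      rw [this]
      exact Submodule.sub_mem _ (Submodule.mem_sup_left hx) (Submodule.mem_sup_right ha)
    rw [h1, Submodule.mem_bot] at hb'
    rw [hb', add_zero] at hx ⊢
    have : a ∈ U ⊓ U' := ⟨hx, ha⟩
    rwa [hinf, Submodule.mem_bot] at this
  have h3 : finrank k (U' ⊔ W : Submodule k V) ≤ d :=
    Nat.le_findGreatest (Submodule.finrank_le _) ⟨_, hU'.sup ρ hW.2.1, h2, rfl⟩
  have h4 : U' ⊔ W = U' := by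
    symm
    exact Submodule.eq_of_le_of_finrank_le le_sup_left (by rw [hdim]; exact h3)
  have h5 : W ≤ U ⊔ U' := (le_sup_right.trans h4.le).trans le_sup_right
  exact hnle h5

omit [FiniteDimensional k V] in
/-- Maschke: semisimplicity passes from a subgroup of finite index to the group. -/
theorem semi_of_le [CharZero k] {N Δ : Subgroup Γ} (hle : N ≤ Δ) (hfin : N.relIndex Δ ≠ 0)
    (h : Semi ρ N) : Semi ρ Δ := by
  classical
  intro U hU
  obtain ⟨U', hU', hc⟩ := h U fun g hg => hU g (hle hg)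
  -- the projection to `U` along `U'`
  let π : V →ₗ[k] V := U.subtype ∘ₗ U.projectionOnto U' hc
  have hπU : ∀ v, π v ∈ U := fun v => (U.projectionOnto U' hc v).2
  have hπid : ∀ u ∈ U, π u = u := by
    intro u hu
    have := Submodule.projectionOnto_apply_left hc ⟨u, hu⟩
    exact congrArg Subtype.val this
  have hπ0 : ∀ u ∈ U', π u = 0 := by
    intro u hu
    have := (Submodule.projectionOnto_apply_eq_zero_iff hc (x := u)).2 hu
    exact congrArg Subtype.val this
  have hdec : ∀ v, ∃ a ∈ U, ∃ b ∈ U', v = a + b := by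
    intro v
    have : v ∈ U ⊔ U' := by rw [hc.sup_eq_top]; trivial
    obtain ⟨a, ha, b, hb, h⟩ := Submodule.mem_sup.1 this
    exact ⟨a, ha, b, hb, h.symm⟩
  have hπN : ∀ g ∈ N, ∀ v, π (ρ g v) = ρ g (π v) := by
    intro g hg v
    obtain ⟨a, ha, b, hb, rfl⟩ := hdec v
    rw [map_add, map_add, map_add, map_add, hπid _ (hU g (hle hg) a ha), hπ0 _ (hU' g hg b hb),
      hπid a ha, hπ0 b hb, map_zero]
  -- the average
  let N' : Subgroup Δ := N.subgroupOf Δ
  have hN' : N'.FiniteIndex := ⟨hfin⟩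
  let f : Δ → (V →ₗ[k] V) := fun g => ρ (g : Γ) ∘ₗ π ∘ₗ ρ ((g : Γ)⁻¹)
  have hf : ∀ (g : Δ) (n : Δ), n ∈ N' → f (g * n) = f g := by
    intro g n hn
    have hn' : (n : Γ) ∈ N := hn
    refine LinearMap.ext fun v => ?_
    change ρ ((g : Γ) * (n : Γ)) (π (ρ ((g : Γ) * (n : Γ))⁻¹ v)) = ρ (g : Γ) (π (ρ ((g : Γ)⁻¹) v))
    rw [mul_inv_rev, map_mul, map_mul, Module.End.mul_apply, Module.End.mul_apply,
      hπN _ (N.inv_mem hn'), rho_inv_mul]
  let fq : Δ ⧸ N' → (V →ₗ[k] V) := Quotient.lift f (by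
    intro a b hab
    have hab' : a⁻¹ * b ∈ N' := QuotientGroup.leftRel_apply.1 hab
    have := hf a _ hab'
    rw [mul_inv_cancel_left] at this
    exact this.symm)
  have hfq : ∀ g : Δ, fq (g : Δ ⧸ N') = f g := fun g => rfl
  let _ : Fintype (Δ ⧸ N') := Fintype.ofFinite _
  let m : k := (Fintype.card (Δ ⧸ N') : k)
  have hm : m ≠ 0 := by
    have h1 : Fintype.card (Δ ⧸ N') ≠ 0 := Fintype.card_ne_zero
    exact Nat.cast_ne_zero.2 h1
  let A : V →ₗ[k] V := m⁻¹ • ∑ c, fq c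
  have hAU : ∀ v, A v ∈ U := by
    intro v
    rw [LinearMap.smul_apply, LinearMap.sum_apply]
    refine U.smul_mem _ (Submodule.sum_mem _ fun c _ => ?_)
    obtain ⟨g, rfl⟩ := QuotientGroup.mk_surjective c
    rw [hfq]
    exact hU _ g.2 _ (hπU _)
  have hAid : ∀ u ∈ U, A u = u := by
    intro u hu
    have h1 : ∀ c : Δ ⧸ N', fq c u = u := by
      intro c
      obtain ⟨g, rfl⟩ := QuotientGroup.mk_surjective c
      rw [hfq]
      change ρ (g : Γ) (π (ρ ((g : Γ)⁻¹) u)) = u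
      rw [hπid _ (hU _ (Δ.inv_mem g.2) u hu), rho_inv_mul]
    rw [LinearMap.smul_apply, LinearMap.sum_apply, Finset.sum_congr rfl fun c _ => h1 c,
      Finset.sum_const, Finset.card_univ, ← Nat.cast_smul_eq_nsmul k, smul_smul,
      inv_mul_cancel₀ hm, one_smul]
  have hAeq : ∀ g ∈ Δ, ∀ v, A (ρ g v) = ρ g (A v) := by
    intro g hg v
    let g' : Δ := ⟨g, hg⟩
    have h1 : ∀ c : Δ ⧸ N', fq (g' • c) (ρ g v) = ρ g (fq c v) := by
      intro c
      obtain ⟨h, rfl⟩ := QuotientGroup.mk_surjective c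
      have h2 : g' • (h : Δ ⧸ N') = ((g' * h : Δ) : Δ ⧸ N') := rfl
      rw [h2, hfq, hfq]
      change ρ (g * (h : Γ)) (π (ρ ((g * (h : Γ))⁻¹) (ρ g v))) = ρ g (ρ (h : Γ) (π (ρ ((h : Γ)⁻¹) v)))
      rw [mul_inv_rev, map_mul, map_mul, Module.End.mul_apply, Module.End.mul_apply, rho_mul_inv]
    rw [LinearMap.smul_apply, LinearMap.smul_apply, LinearMap.sum_apply, LinearMap.sum_apply,
      map_smul, map_sum]
    congr 1
    rw [← Equiv.sum_comp (MulAction.toPerm g')]
    exact Finset.sum_congr rfl fun c _ => h1 c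
  refine ⟨LinearMap.ker A, fun g hg u hu => ?_, ?_⟩
  · rw [LinearMap.mem_ker] at hu ⊢
    rw [hAeq g hg, hu, map_zero]
  · rw [isCompl_iff, disjoint_iff, codisjoint_iff]
    constructor
    · rw [Submodule.eq_bot_iff]
      rintro x ⟨hx, hx'⟩
      rw [SetLike.mem_coe, LinearMap.mem_ker] at hx'
      rw [← hAid x hx, hx']
    · rw [eq_top_iff]
      intro v _
      have h1 : v = A v + (v - A v) := by abel
      rw [h1]
      refine Submodule.add_mem_sup (hAU v) ?_
      rw [LinearMap.mem_ker, map_sub, hAid _ (hAU v), sub_self]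

/-- A semisimple representation is semisimple under all subgroups of finite index. -/
theorem semi_finiteIndex [CharZero k] (h : Semi ρ (⊤ : Subgroup Γ)) (Δ : Subgroup Γ)
    [Δ.FiniteIndex] : Semi ρ Δ := by
  have h1 : Semi ρ Δ.normalCore := semi_normal ρ h Δ.normalCore
  refine semi_of_le ρ (Subgroup.normalCore_le Δ) ?_ h1
  have h2 : Δ.normalCore.index ≠ 0 := (inferInstance : Δ.normalCore.FiniteIndex).index_ne_zero
  intro h3
  apply h2
  rw [← Subgroup.relIndex_mul_index (Subgroup.normalCore_le Δ), h3, zero_mul]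

end Pool.Agent.Y114.GF
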