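import Mathlib
import Pool.Agent.H204R3.GP.Neat

/-!
# Tate classes and one element of the Galois group, in terms of the roots
-/

set_option autoImplicit false
set_option linter.unusedSectionVars false

namespace Pool.Agent.Y114.GF

open NumberField Module Pool.Agent.H204R3.GP Pool.Agent.H204R3.SP TensorProduct Polynomial

/-- A basis of eigenvectors. -/
theorem exists_eigenbasis_roots {X : Type*} [Fintype X] {Ω : Type*} [Field Ω] {W : Type*}
    [AddCommGroup W] [Module Ω W] [FiniteDimensional Ω W] (T : Module.End Ω W) (val : X → Ω)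
    (hinj : Function.Injective val) (hT : T.charpoly = ∏ x, (Polynomial.X - C (val x))) :
    ∃ e : Basis X Ω W, ∀ x, T (e x) = val x • e x := by
  classical
  have h1 : ∀ x : X, T.HasEigenvalue (val x) := by
    intro x
    rw [Module.End.hasEigenvalue_iff_isRoot_charpoly, hT, Polynomial.IsRoot,
      Polynomial.eval_prod]
    refine Finset.prod_eq_zero (Finset.mem_univ x) ?_
    simp
  choose v hv using fun x => (h1 x).exists_hasEigenvector
  have hli := Module.End.eigenvectors_linearIndependent' T val hinj v hv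
  have hfin : Fintype.card X = finrank Ω W := by
    rw [← LinearMap.charpoly_natDegree T, hT, Polynomial.natDegree_prod_of_monic _ _
      fun x _ => monic_X_sub_C _]
    simp
  by_cases hne : Nonempty X
  · refine ⟨basisOfLinearIndependentOfCardEqFinrank hli hfin, fun x => ?_⟩
    rw [coe_basisOfLinearIndependentOfCardEqFinrank]
    exact (hv x).apply_eq_smul
  · have hemp : IsEmpty X := not_nonempty_iff.1 hne
    have h0 : finrank Ω W = 0 := by rw [← hfin, Fintype.card_eq_zero_iff]; exact hemp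
    have _ : Subsingleton W := finrank_zero_iff.1 h0
    exact ⟨Basis.empty W, fun x => hemp.elim x⟩

/-- Tate forms are combinations of products of Tate forms of degree two. -/
theorem tate_of_roots {k : Type*} [Field k] [CharZero k] {V : Type*} [AddCommGroup V]
    [Module k V] [FiniteDimensional k V]
    {X : Type*} [Fintype X] [DecidableEq X] (inv : X → X) (hinv : ∀ x, inv (inv x) = x)
    (hne : ∀ x, inv x ≠ x) {L : Type*} [Field L] [NumberField L] (val : X → L)
    (hval : Function.Injective val) (Q : ℕ) (hQ : Q ≠ 0) (hvi : ∀ x, val x * val (inv x) = Q)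
    (hbalL : ∀ (m M : ℕ), 0 < M → ∀ I : Fin m × Fin 2 → X,
      ∏ l, val (I l) ^ M = (Q : L) ^ (m * M) → ∀ y,
        (Finset.univ.filter (fun l => I l = y)).card =
          (Finset.univ.filter (fun l => I l = inv y)).card)
    (P : ℚ[X]) (hP : P.map (algebraMap ℚ L) = ∏ x, (Polynomial.X - C (val x)))
    {Γ : Type*} [Group Γ] (ρ : Representation k Γ V) (χ : Γ →* k)
    (ω : V →ₗ[k] V →ₗ[k] k) (halt : ∀ v, ω v v = 0) (hnd : ∀ u, (∀ v, ω v u = 0) → u = 0)
    (hωρ : ∀ s u v, ω (ρ s u) (ρ s v) = χ s * ω u v)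
    (hss : ∀ Δ : Subgroup Γ, Δ.FiniteIndex → SemiUnder (ρ '' (Δ : Set Γ)))
    (γ : Γ) (hχ : χ γ = (Q : k)) (hγ : (ρ γ).charpoly = P.map (algebraMap ℚ k))
    {m : ℕ} (φ : MultilinearMap k (fun _ : Fin m × Fin 2 => V) k) (hφ : IsTate ρ χ m φ) :
    φ ∈ Submodule.span k (PT ρ χ m) := by
  classical
  obtain ⟨Ω, hΩ, ⟨jΩ⟩⟩ := exists_finite_ext k L
  have hanti : ∀ u v, ω u v = -ω v u := by
    intro u v
    have h1 := halt (u + v)
    simp only [map_add, LinearMap.add_apply, halt, zero_add, add_zero] at h1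
    exact eq_neg_of_add_eq_zero_left (by rw [← h1]; ring)
  have hnd' : ∀ u, (∀ v, ω u v = 0) → u = 0 := by
    intro u hu
    apply hnd
    intro v
    rw [hanti, hu, neg_zero]
  let b := Module.finBasis k V
  have hTchar : (bcr ρ Ω γ).charpoly = ∏ x, (Polynomial.X - C (jΩ (val x))) := by
    change ((ρ γ).baseChange Ω).charpoly = _
    rw [LinearMap.charpoly_baseChange, hγ, Polynomial.map_map]
    have h1 : (algebraMap k Ω).comp (algebraMap ℚ k) = jΩ.comp (algebraMap ℚ L) :=
      Subsingleton.elim _ _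
    rw [h1, ← Polynomial.map_map, hP, Polynomial.map_prod]
    refine Finset.prod_congr rfl fun x _ => ?_
    rw [Polynomial.map_sub, Polynomial.map_X, Polynomial.map_C]
  obtain ⟨e, he⟩ := exists_eigenbasis_roots (bcr ρ Ω γ) (fun x => jΩ (val x))
    (fun x y h => hval (jΩ.injective h)) hTchar
  have hantiΩ : ∀ u v, bcb Ω ω u v = -bcb Ω ω v u := by
    have h1 : bcb Ω ω = -(bcb Ω ω).flip := by
      refine (b.baseChange Ω).ext fun i => (b.baseChange Ω).ext fun l => ?_
      rw [LinearMap.neg_apply, LinearMap.neg_apply, LinearMap.flip_apply, Basis.baseChange_apply,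
        Basis.baseChange_apply, bcb_one, bcb_one, hanti, map_neg]
    intro u v
    exact congrArg (fun F : (Ω ⊗[k] V) →ₗ[Ω] (Ω ⊗[k] V) →ₗ[Ω] Ω => F u v) h1
  have hQL : (Q : L) ≠ 0 := Nat.cast_ne_zero.2 hQ
  have hq : ∀ x y : X, y ≠ inv x → bcb Ω ω (e x) (e y) = 0 := by
    intro x y hxy
    by_contra h0
    apply hxy
    have h1 := bcb_inv ρ χ (Ω := Ω) ω hωρ γ (e x) (e y)
    rw [he, he, map_smul, map_smul, LinearMap.smul_apply, smul_eq_mul, smul_eq_mul, bcc_apply, hχ,
      ← mul_assoc] at h1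
    have h2 := mul_right_cancel₀ h0 h1
    have h3 : jΩ (val y * val x) = jΩ (Q : L) := by
      simp only [map_mul, map_natCast] at h2 ⊢
      exact h2
    have h4 := jΩ.injective h3
    have h5 := hvi x
    have hx0 : val x ≠ 0 := by
      intro h6
      rw [h6, zero_mul] at h5
      exact hQL h5.symm
    apply hval
    apply mul_left_cancel₀ hx0
    rw [h5, mul_comm, h4]
  let jj : X → Ω := fun x => bcb Ω ω (e x) (e (inv x))
  have hjj : ∀ x, jj (inv x) = -jj x := by
    intro x
    simp only [jj, hinv]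
    exact hantiΩ _ _
  have hj0 : ∀ x, jj x ≠ 0 := by
    intro x h0
    apply e.ne_zero (inv x)
    apply bcb_nondeg b ω hnd hnd'
    have h1 : (bcb Ω ω).flip (e (inv x)) = 0 := by
      refine e.ext fun y => ?_
      rw [LinearMap.flip_apply, LinearMap.zero_apply]
      by_cases hy : inv x = inv y
      · have h2 : y = x := by rw [← hinv y, ← hy, hinv]
        rw [h2]
        exact h0
      · exact hq _ _ hy
    intro v
    exact congrArg (fun F : (Ω ⊗[k] V) →ₗ[Ω] Ω => F v) h1
  have hω : ∀ x y, bcb Ω ω (e x) (e y) = JJ inv jj x y := by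
    intro x y
    unfold JJ
    by_cases hy : y = inv x
    · rw [if_pos hy, hy]
    · rw [if_neg hy, hq x y hy]
  have hbal : ∀ (m : ℕ) (φ : MultilinearMap Ω (fun _ : Fin m × Fin 2 => Ω ⊗[k] V) Ω),
      IsTate (bcr ρ Ω) (bcc χ Ω) m φ →
      ∀ I : Fin m × Fin 2 → X, φ (fun l => e (I l)) ≠ 0 → ∀ y,
        (Finset.univ.filter (fun l => I l = y)).card =
          (Finset.univ.filter (fun l => I l = inv y)).card := by
    rintro m φ ⟨Δ, hΔ, hφ⟩ I hI y
    obtain ⟨M, hM, -, hMΔ⟩ := Subgroup.exists_pow_mem_of_index_ne_zero hΔ.index_ne_zero γ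
    refine hbalL m M hM I ?_ y
    have h1 := hφ (γ ^ M) hMΔ (fun l => e (I l))
    have h2 : ∀ (n : ℕ) (x : X),
        bcr ρ Ω (γ ^ n) (e x) = (jΩ (val x)) ^ n • e x := by
      intro n x
      induction n with
      | zero => rw [pow_zero, pow_zero, one_smul, map_one]; rfl
      | succ n ih =>
        rw [pow_succ, map_mul, pow_succ, Module.End.mul_apply, he]
        change bcr ρ Ω (γ ^ n) ((jΩ (val x)) • e x) = _
        rw [map_smul, ih, smul_smul, mul_comm]
    simp only [h2] at h1
    rw [MultilinearMap.map_smul_univ, smul_eq_mul, map_pow, bcc_apply, hχ] at h1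
    have h3 := mul_right_cancel₀ hI h1
    have h4 : jΩ (∏ l, (val (I l)) ^ M) = jΩ ((Q : L) ^ (m * M)) := by
      simp only [map_prod, map_pow, map_natCast] at h3 ⊢
      rw [h3, ← pow_mul]
      congr 1
      ring
    exact jΩ.injective h4
  refine tate_descentG (Ω := Ω) b ρ χ ?_ φ hφ
  intro φ' hφ'
  refine tateG_mem e hinv hne hjj hj0 (bcb Ω ω) hω (bcr ρ Ω) (bcc χ Ω)
    (bcb_inv ρ χ ω hωρ) ?_ hbal φ' hφ'
  intro Δ hΔ U hU
  obtain ⟨P, hP1, hP2, hP3⟩ := exists_proj_baseChange (Ω := Ω) (ρ '' (Δ : Set Γ)) (hss Δ hΔ) U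
    (by
      rintro _ ⟨s, hs, rfl⟩ u hu
      exact hU s hs u hu)
  exact ⟨P, hP1, hP2, fun s hs v => hP3 _ ⟨s, hs, rfl⟩ v⟩

end Pool.Agent.Y114.GF
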