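import Mathlib
import Pool.Agent.Y114.GF.Defs
import Pool.Agent.Y114.GF.Roots

/-!
# Consequences of the absence of multiplicative relations
-/

set_option autoImplicit false
set_option linter.unusedSectionVars false

namespace Pool.Agent.Y114.GF

open NumberField IsDedekindDomain Polynomial Module Pool.Agent.Y114.TF Pool.Agent.H204R3.GP
  Pool.Agent.H204R3.SP

section roots

theorem mem_complexRoots {f : ℚ[X]} (hf : f ≠ 0) {a : ℂ} :
    a ∈ complexRoots f ↔ aeval a f = 0 := by
  unfold complexRoots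
  rw [Multiset.mem_toFinset, mem_aroots]
  exact and_iff_right hf

theorem conj_mem {f : ℚ[X]} (hf : f ≠ 0) {a : ℂ} (ha : a ∈ complexRoots f) :
    (starRingEnd ℂ) a ∈ complexRoots f := by
  rw [mem_complexRoots hf] at ha ⊢
  let φ : ℂ →ₐ[ℚ] ℂ := RingHom.equivRatAlgHom ℂ ℂ (starRingEnd ℂ)
  have h1 : φ (aeval a f) = aeval (φ a) f := (Polynomial.aeval_algHom_apply φ a f).symm
  rw [ha, map_zero] at h1
  exact h1.symm

theorem nodup_aroots {f : ℚ[X]} (hf : Squarefree f) : (f.aroots ℂ).Nodup := by
  have h1 : f.Separable := PerfectField.separable_iff_squarefree.2 hf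
  exact nodup_aroots_iff_of_splits h1.ne_zero (IsAlgClosed.splits _) |>.2 h1

theorem map_eq_prod {f : ℚ[X]} (hf : Squarefree f) (hm : f.Monic) :
    f.map (algebraMap ℚ ℂ) = ∏ a ∈ complexRoots f, (X - C a) := by
  have h1 := (IsAlgClosed.splits (f.map (algebraMap ℚ ℂ))).eq_prod_roots_of_monic
    (hm.map (algebraMap ℚ ℂ))
  rw [h1]
  unfold complexRoots
  rw [Finset.prod, Multiset.toFinset_val, (nodup_aroots hf).dedup]

/-- The field generated by the roots. -/
noncomputable def rootField (f : ℚ[X]) : IntermediateField ℚ ℂ :=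
  IntermediateField.adjoin ℚ (complexRoots f : Set ℂ)

theorem mem_rootField {f : ℚ[X]} {a : ℂ} (ha : a ∈ complexRoots f) : a ∈ rootField f :=
  IntermediateField.subset_adjoin ℚ _ ha

theorem numberField_rootField {f : ℚ[X]} (hf : f ≠ 0) : NumberField (rootField f) := by
  have h1 : FiniteDimensional ℚ (rootField f) := by
    unfold rootField
    have hfin : Finite (complexRoots f : Set ℂ) := (complexRoots f).finite_toSet
    refine IntermediateField.finiteDimensional_adjoin fun a ha => ?_
    rw [Finset.mem_coe, mem_complexRoots hf] at ha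
    have h2 : IsAlgebraic ℚ a := ⟨f, hf, ha⟩
    exact h2.isIntegral
  exact { to_charZero := inferInstance, to_finiteDimensional := h1 }

end roots

section free

variable {F : Type} [Field F] [NumberField F] {ι : Type} [Fintype ι]
  {P : HeightOneSpectrum (𝓞 F) → ι → ℚ[X]} {p : ℕ}

/-- Relations at one place. -/
theorem RelationFree.single (h : RelationFree P p) {v : HeightOneSpectrum (𝓞 F)} (hv : Above v p)
    (c : ℂ → ℤ) (hc : ∏ a ∈ complexRoots (∏ i, P v i), a ^ c a = 1) :
    ∀ a ∈ complexRoots (∏ i, P v i), c a = c ((starRingEnd ℂ) a) := by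
  classical
  intro a ha
  have h1 := h.2 (fun v' a => if v' = v then c a else 0) (by
    rw [finprod_eq_single _ v]
    · rw [finprod_eq_if, if_pos hv, ← hc]
      refine Finset.prod_congr rfl fun a _ => ?_
      rw [if_pos rfl]
    · intro v' hv'
      rw [finprod_eq_if]
      split_ifs with h1
      · refine Finset.prod_eq_one fun a _ => ?_
        exact zpow_zero a
      · rfl) v hv a ha
  rwa [if_pos rfl, if_pos rfl] at h1

variable {k : Type} [Field k] [CharZero k] {V : Type} [AddCommGroup V] [Module k V]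
  [FiniteDimensional k V] {Γ : Type} [Group Γ]

/-- Tate forms are generated in degree two. -/
theorem tate_of_free (h : RelationFree P p) {v : HeightOneSpectrum (𝓞 F)} (hv : Above v p)
    (hmonic : ∀ i, (P v i).Monic) (Q : ℕ) (hQ : Q ≠ 0)
    (hpure : ∀ i, ∀ a ∈ (P v i).aroots ℂ, ‖a‖ ^ 2 = (Q : ℝ))
    (ρ : Representation k Γ V) (χ : Γ →* k)
    (ω : V →ₗ[k] V →ₗ[k] k) (halt : ∀ v, ω v v = 0) (hnd : ∀ u, (∀ v, ω v u = 0) → u = 0)
    (hωρ : ∀ s u v, ω (ρ s u) (ρ s v) = χ s * ω u v)
    (hss : ∀ Δ : Subgroup Γ, Δ.FiniteIndex → SemiUnder (ρ '' (Δ : Set Γ)))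
    (γ : Γ) (hχ : χ γ = (Q : k))
    (hγ : (ρ γ).charpoly = (∏ i, P v i).map (algebraMap ℚ k))
    {m : ℕ} (φ : MultilinearMap k (fun _ : Fin m × Fin 2 => V) k) (hφ : IsTate ρ χ m φ) :
    φ ∈ Submodule.span k (PT ρ χ m) := by
  classical
  obtain ⟨hsf, hnr⟩ := h.1 v hv
  set f : ℚ[X] := ∏ i, P v i with hf
  have hfm : f.Monic := monic_prod_of_monic _ _ fun i _ => hmonic i
  have hf0 : f ≠ 0 := hfm.ne_zero
  have hpure' : ∀ a ∈ complexRoots f, a * (starRingEnd ℂ) a = (Q : ℂ) := by
    intro a ha
    rw [mem_complexRoots hf0, hf, map_prod, Finset.prod_eq_zero_iff] at ha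
    obtain ⟨i, -, hi⟩ := ha
    have h1 := hpure i a (by
      rw [mem_aroots]
      exact ⟨(hmonic i).ne_zero, hi⟩)
    rw [Complex.mul_conj, Complex.normSq_eq_norm_sq, h1]
    simp
  let X : Type := {a : ℂ // a ∈ complexRoots f}
  let inv : X → X := fun x => ⟨(starRingEnd ℂ) x.1, conj_mem hf0 x.2⟩
  have hNF := numberField_rootField hf0
  let val : X → rootField f := fun x => ⟨x.1, mem_rootField x.2⟩
  have hval : Function.Injective val := by
    intro x y hxy
    exact Subtype.ext (congrArg (fun z : rootField f => (z : ℂ)) hxy)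
  refine tate_of_roots (X := X) inv (fun x => Subtype.ext (Complex.conj_conj x.1))
    (fun x hx => hnr x.1 x.2 (congrArg Subtype.val hx)) (L := rootField f) val hval Q hQ ?_ ?_ f ?_
    ρ χ ω halt hnd hωρ hss γ hχ hγ φ hφ
  · intro x
    apply Subtype.ext
    change x.1 * (starRingEnd ℂ) x.1 = ((Q : rootField f) : ℂ)
    rw [hpure' x.1 x.2]
    simp
  · intro m M hM I hprod y
    have hprodC : ∏ l, ((I l).1 : ℂ) ^ M = (Q : ℂ) ^ (m * M) := by
      have h1 := congrArg (rootField f).val hprod
      rw [map_prod, map_pow, map_natCast] at h1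
      rw [← h1]
      refine Finset.prod_congr rfl fun l _ => ?_
      rw [map_pow]
      rfl
    let c : X → ℕ := fun z => (Finset.univ.filter (fun l => I l = z)).card
    have hc : ∀ g : X → ℂ, ∏ z, g z ^ c z = ∏ l, g (I l) := by
      intro g
      have h2 : ∀ z, g z ^ c z = ∏ l, if I l = z then g z else 1 := by
        intro z
        rw [← Finset.prod_filter, Finset.prod_const]
      rw [Finset.prod_congr rfl (fun z _ => h2 z), Finset.prod_comm]
      refine Finset.prod_congr rfl fun l _ => ?_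
      rw [Finset.prod_ite_eq, if_pos (Finset.mem_univ _)]
    let e : ℂ → ℤ := fun a => if ha : a ∈ complexRoots f then
      (M : ℤ) * ((c ⟨a, ha⟩ : ℤ) - c (inv ⟨a, ha⟩)) else 0
    have he : ∀ x : X, e x.1 = (M : ℤ) * ((c x : ℤ) - c (inv x)) := by
      intro x
      simp only [e]
      rw [dif_pos x.2]
    have hx0 : ∀ x : X, x.1 ≠ 0 := by
      intro x h0
      have := hpure' x.1 x.2
      rw [h0, zero_mul] at this
      exact hQ (by exact_mod_cast this.symm)
    have h3 := RelationFree.single h hv e (by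
      rw [← hf, ← Finset.prod_coe_sort]
      have h4 : ∀ x : X, x.1 ^ e x.1 = ((x.1 ^ M) ^ c x) * (((x.1 ^ M) ^ c (inv x)))⁻¹ := by
        intro x
        rw [he, zpow_mul, zpow_natCast, zpow_sub₀ (pow_ne_zero _ (hx0 x)), zpow_natCast,
          zpow_natCast, div_eq_mul_inv]
      have h5 : ∏ x : X, x.1 ^ e x.1 =
          (∏ x : X, (x.1 ^ M) ^ c x) * (∏ x : X, (x.1 ^ M) ^ c (inv x))⁻¹ := by
        rw [← Finset.prod_inv_distrib, ← Finset.prod_mul_distrib]
        exact Finset.prod_congr rfl fun x _ => h4 x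
      have h6 : ∏ x : X, (x.1 ^ M) ^ c x = (Q : ℂ) ^ (m * M) := by
        rw [hc fun x => x.1 ^ M, hprodC]
      have h7 : ∏ x : X, (x.1 ^ M) ^ c (inv x) = (Q : ℂ) ^ (m * M) := by
        let B : X ≃ X := ⟨inv, inv, fun x => Subtype.ext (Complex.conj_conj x.1),
          fun x => Subtype.ext (Complex.conj_conj x.1)⟩
        rw [← Equiv.prod_comp B]
        have h8 : ∀ x : X, ((B x).1 ^ M) ^ c (inv (B x)) = (starRingEnd ℂ) ((x.1 ^ M) ^ c x) := by
          intro x
          have h9 : inv (B x) = x := Subtype.ext (Complex.conj_conj x.1)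
          rw [h9, map_pow, map_pow]
          rfl
        rw [Finset.prod_congr rfl fun x _ => h8 x, ← map_prod, h6, map_pow, map_natCast]
      exact (h5.trans (by
        rw [h6, h7]
        exact mul_inv_cancel₀ (pow_ne_zero _ (Nat.cast_ne_zero.2 hQ))))) y.1 y.2
    rw [he] at h3
    have h10 : e ((starRingEnd ℂ) y.1) = (M : ℤ) * ((c (inv y) : ℤ) - c y) := by
      have := he (inv y)
      have h11 : inv (inv y) = y := Subtype.ext (Complex.conj_conj y.1)
      rw [h11] at this
      exact this
    rw [h10] at h3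
    have hM' : (M : ℤ) ≠ 0 := by exact_mod_cast hM.ne'
    have h12 : (M : ℤ) * (2 * ((c y : ℤ) - c (inv y))) = 0 := by linarith
    rcases mul_eq_zero.1 h12 with h13 | h13
    · exact absurd h13 hM'
    · have h14 : (c y : ℤ) = c (inv y) := by linarith
      exact_mod_cast h14
  · apply Polynomial.map_injective (algebraMap (rootField f) ℂ) (algebraMap (rootField f) ℂ).injective
    have h1 : (algebraMap (rootField f) ℂ).comp (algebraMap ℚ (rootField f)) = algebraMap ℚ ℂ :=
      Subsingleton.elim _ _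
    rw [Polynomial.map_map, h1, map_eq_prod hsf hfm, Polynomial.map_prod, ← Finset.prod_coe_sort]
    refine Finset.prod_congr rfl fun x _ => ?_
    rw [Polynomial.map_sub, Polynomial.map_X, Polynomial.map_C]
    rfl

end free

end Pool.Agent.Y114.GF
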