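import Mathlib
import Pool.Agent.Y114.GF.Rel

/-!
# There are no isotropic relations
-/

set_option autoImplicit false
set_option linter.unusedSectionVars false

namespace Pool.Agent.Y114.GF

open NumberField IsDedekindDomain Polynomial Module Pool.Agent.Y114.TF

variable {F : Type} [Field F] [NumberField F]

theorem finite_above {p : ℕ} (hp : p ≠ 0) :
    {v : HeightOneSpectrum (𝓞 F) | Above v p}.Finite := by
  have h1 : (Ideal.span {(p : 𝓞 F)} : Ideal (𝓞 F)) ≠ 0 := by
    rw [Ne, Ideal.zero_eq_bot, Ideal.span_singleton_eq_bot]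
    exact Nat.cast_ne_zero.2 hp
  refine (Ideal.finite_factors h1).subset fun v hv => ?_
  change v.asIdeal ∣ _
  rw [Ideal.dvd_span_singleton]
  exact hv

theorem exists_above {p : ℕ} (hp : p.Prime) : ∃ v : HeightOneSpectrum (𝓞 F), Above v p := by
  have h1 : ¬ IsUnit (p : 𝓞 F) := by
    intro h
    have h3 : IsUnit ((Algebra.norm ℤ (p : 𝓞 F))) := h.map _
    have h4 : Algebra.norm ℤ (p : 𝓞 F) = (p : ℤ) ^ finrank ℤ (𝓞 F) := by
      have := Algebra.norm_algebraMap (S := 𝓞 F) (p : ℤ)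
      simpa using this
    rw [h4, Int.isUnit_iff_natAbs_eq, Int.natAbs_pow, Int.natAbs_natCast] at h3
    have h5 : finrank ℤ (𝓞 F) ≠ 0 := by
      rw [RingOfIntegers.rank]
      exact finrank_pos.ne'
    rcases pow_eq_one_iff.1 h3 with h | h
    · exact hp.one_lt.ne' h
    · exact h5 h
  obtain ⟨M, hM, hpM⟩ := exists_max_ideal_of_mem_nonunits h1
  refine ⟨⟨M, hM.isPrime, fun h0 => ?_⟩, hpM⟩
  rw [h0, Ideal.mem_bot] at hpM
  exact Nat.cast_ne_zero.2 hp.ne_zero hpM

variable {ι : Type} [Fintype ι] {P : HeightOneSpectrum (𝓞 F) → ι → ℚ[X]} {p : ℕ}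

theorem not_iso (hp : p.Prime) (h : RelationFree P p)
    (hmonic : ∀ v, Above v p → ∀ i, (P v i).Monic) (i : ι) (w : ℕ)
    (hpure : ∀ v, Above v p → ∀ a ∈ (P v i).aroots ℂ, ‖a‖ ^ 2 = (q v : ℝ) ^ w)
    {kk : ℕ} (hk : 0 < kk) (A : HeightOneSpectrum (𝓞 F) → Multiset ℂ)
    (hA : ∀ v : HeightOneSpectrum (𝓞 F), (p : 𝓞 F) ∈ v.asIdeal → Multiset.card (A v) = kk ∧
      A v + (A v).map (fun a => (Ideal.absNorm v.asIdeal : ℂ) ^ (w : ℤ) / a) ≤
        ((P v i).map (algebraMap ℚ ℂ)).roots) {N : ℕ} (hN : 0 < N)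
    (hprod : (∏ᶠ (v : HeightOneSpectrum (𝓞 F)) (_ : (p : 𝓞 F) ∈ v.asIdeal), (A v).prod) ^ (2 * N) =
        (p : ℂ) ^ ((w : ℤ) * kk * finrank ℚ F * N)) : False := by
  classical
  let S : Finset (HeightOneSpectrum (𝓞 F)) := (finite_above (F := F) hp.ne_zero).toFinset
  have hS : ∀ v, v ∈ S ↔ Above v p := fun v => (finite_above (F := F) hp.ne_zero).mem_toFinset
  let R : HeightOneSpectrum (𝓞 F) → Finset ℂ := fun v => complexRoots (∏ i, P v i)
  have hf0 : ∀ v, Above v p → (∏ i, P v i) ≠ 0 := fun v hv =>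
    (monic_prod_of_monic _ _ fun i _ => hmonic v hv i).ne_zero
  have hAR : ∀ v, Above v p → ∀ a ∈ A v, a ∈ (P v i).aroots ℂ := fun v hv a ha =>
    Multiset.mem_of_le (hA v hv).2 (Multiset.mem_add.2 (Or.inl ha))
  have hR : ∀ v, Above v p → ∀ a ∈ A v, a ∈ R v := by
    intro v hv a ha
    have h1 := hAR v hv a ha
    rw [mem_aroots] at h1
    rw [mem_complexRoots (hf0 v hv), map_prod]
    exact Finset.prod_eq_zero (Finset.mem_univ i) h1.2
  have hq0 : ∀ v : HeightOneSpectrum (𝓞 F), (q v : ℝ) ≠ 0 := by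
    intro v
    have : Ideal.absNorm v.asIdeal ≠ 0 := by
      rw [Ne, Ideal.absNorm_eq_zero_iff]
      exact v.ne_bot
    exact Nat.cast_ne_zero.2 this
  have ha0 : ∀ v, Above v p → ∀ a ∈ A v, a ≠ 0 := by
    intro v hv a ha h0
    have h1 := hpure v hv a (hAR v hv a ha)
    rw [h0, norm_zero, zero_pow two_ne_zero] at h1
    exact pow_ne_zero w (hq0 v) h1.symm
  -- the exponents
  let e : HeightOneSpectrum (𝓞 F) → ℂ → ℤ := fun v a =>
    (2 * N : ℤ) * ((Multiset.count a (A v) : ℤ) - Multiset.count ((starRingEnd ℂ) a) (A v))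
  have hcnt : ∀ v, Above v p → ∏ a ∈ R v, a ^ Multiset.count a (A v) = (A v).prod := by
    intro v hv
    rw [Finset.prod_multiset_count_of_subset (A v) (R v) fun a ha =>
      hR v hv a (Multiset.mem_toFinset.1 ha)]
  have hcnt2 : ∀ v, Above v p → ∏ a ∈ R v, a ^ Multiset.count ((starRingEnd ℂ) a) (A v) =
      (starRingEnd ℂ) (A v).prod := by
    intro v hv
    rw [← hcnt v hv, map_prod]
    refine Finset.prod_bij' (fun a _ => (starRingEnd ℂ) a) (fun a _ => (starRingEnd ℂ) a)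
      (fun a ha => conj_mem (hf0 v hv) ha) (fun a ha => conj_mem (hf0 v hv) ha)
      (fun a _ => Complex.conj_conj a) (fun a _ => Complex.conj_conj a) fun a _ => ?_
    rw [map_pow, Complex.conj_conj]
  have hAp0 : ∀ v, Above v p → (A v).prod ≠ 0 := by
    intro v hv h0
    rw [Multiset.prod_eq_zero_iff] at h0
    exact ha0 v hv 0 h0 rfl
  have hRe : ∀ v, Above v p → ∏ a ∈ R v, a ^ e v a =
      (A v).prod ^ (2 * N) * ((starRingEnd ℂ) ((A v).prod ^ (2 * N)))⁻¹ := by
    intro v hv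
    have h0 : ∀ a ∈ R v, a ≠ 0 := by
      intro a ha h0
      subst h0
      have h2 : ∃ i', aeval (0 : ℂ) (P v i') = 0 := by
        rw [mem_complexRoots (hf0 v hv), map_prod, Finset.prod_eq_zero_iff] at ha
        obtain ⟨i', -, h⟩ := ha
        exact ⟨i', h⟩
      exact (h.1 v hv).2 0 (by assumption) (map_zero _)
    have h1 : ∀ a ∈ R v, a ^ e v a = (a ^ Multiset.count a (A v)) ^ (2 * N) *
        ((a ^ Multiset.count ((starRingEnd ℂ) a) (A v)) ^ (2 * N))⁻¹ := by
      intro a ha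
      simp only [e]
      rw [mul_comm, zpow_mul, zpow_sub₀ (h0 a ha), zpow_natCast, zpow_natCast, ← Nat.cast_two,
        ← Nat.cast_mul, zpow_natCast, div_pow, div_eq_mul_inv]
    rw [Finset.prod_congr rfl h1, Finset.prod_mul_distrib, Finset.prod_inv_distrib,
      Finset.prod_pow, Finset.prod_pow, hcnt v hv, hcnt2 v hv, map_pow]
  have hfinS : (∏ᶠ (v : HeightOneSpectrum (𝓞 F)) (_ : (p : 𝓞 F) ∈ v.asIdeal), (A v).prod) =
      ∏ v ∈ S, (A v).prod := by
    apply finprod_cond_eq_prod_of_cond_iff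
    intro v _
    exact (hS v).symm
  have hrel : ∏ᶠ (v : HeightOneSpectrum (𝓞 F)) (_ : Above v p), ∏ a ∈ complexRoots (∏ i, P v i),
      a ^ e v a = 1 := by
    have h1 : (∏ᶠ (v : HeightOneSpectrum (𝓞 F)) (_ : Above v p),
        ∏ a ∈ complexRoots (∏ i, P v i), a ^ e v a) =
        ∏ v ∈ S, ∏ a ∈ complexRoots (∏ i, P v i), a ^ e v a := by
      apply finprod_cond_eq_prod_of_cond_iff
      intro v _
      exact (hS v).symm
    rw [h1, Finset.prod_congr rfl fun v hv => hRe v ((hS v).1 hv), Finset.prod_mul_distrib,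
      Finset.prod_inv_distrib, ← map_prod, Finset.prod_pow, ← hfinS, hprod, map_zpow₀,
      Complex.conj_natCast]
    exact mul_inv_cancel₀ (zpow_ne_zero _ (Nat.cast_ne_zero.2 hp.ne_zero))
  have hsym := h.2 e hrel
  obtain ⟨v, hv⟩ := exists_above (F := F) hp
  obtain ⟨a, ha⟩ := Multiset.card_pos_iff_exists_mem.1 ((hA v hv).1 ▸ hk)
  have h1 := hsym v hv a (hR v hv a ha)
  simp only [e, Complex.conj_conj] at h1
  have h2 : Multiset.count a (A v) = Multiset.count ((starRingEnd ℂ) a) (A v) := by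
    have h3 : (2 * N : ℤ) ≠ 0 := by
      have : (N : ℤ) ≠ 0 := by exact_mod_cast hN.ne'
      omega
    have h4 := mul_left_cancel₀ h3 h1
    omega
  have h3 : (starRingEnd ℂ) a ∈ A v := by
    rw [← Multiset.count_pos, ← h2, Multiset.count_pos]
    exact ha
  -- contradiction with simple roots
  have h4 : a * (starRingEnd ℂ) a = (Ideal.absNorm v.asIdeal : ℂ) ^ (w : ℤ) := by
    rw [Complex.mul_conj, Complex.normSq_eq_norm_sq, hpure v hv a (hAR v hv a ha)]
    unfold q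
    push_cast
    rw [zpow_natCast]
  have h5 : a ∈ (A v).map (fun a => (Ideal.absNorm v.asIdeal : ℂ) ^ (w : ℤ) / a) := by
    rw [Multiset.mem_map]
    refine ⟨(starRingEnd ℂ) a, h3, ?_⟩
    rw [← h4, mul_div_assoc, div_self (ha0 v hv _ h3), mul_one]
  have h6 : 2 ≤ Multiset.count a (A v +
      (A v).map (fun a => (Ideal.absNorm v.asIdeal : ℂ) ^ (w : ℤ) / a)) := by
    rw [Multiset.count_add]
    have h7 := Multiset.one_le_count_iff_mem.2 ha
    have h8 := Multiset.one_le_count_iff_mem.2 h5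
    omega
  have h7 := Multiset.count_le_of_le a (hA v hv).2
  have h8 : Squarefree (P v i) :=
    (h.1 v hv).1.squarefree_of_dvd (Finset.dvd_prod_of_mem _ (Finset.mem_univ i))
  have h9 : Multiset.count a ((P v i).map (algebraMap ℚ ℂ)).roots ≤ 1 :=
    Multiset.nodup_iff_count_le_one.1 (nodup_aroots h8) a
  omega

end Pool.Agent.Y114.GF
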