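import Mathlib
import Pool.Agent.Y115.Main
import Pool.Agent.Y114.GF.Iso

/-!
# Stable isotropic subspaces are zero
-/

set_option autoImplicit false
set_option linter.unusedSectionVars false

namespace Pool.Agent.Y114.GF

open NumberField IsDedekindDomain Polynomial Module Pool.Agent.Y114.TF Matrix
open Pool.Agent.W569.FM Pool.Agent.W571.FM Pool.Agent.Y115.R Pool.Agent.Y115.T Pool.Agent.Y115.Chi

variable {F : Type} [Field F] [NumberField F] {ι : Type} [Fintype ι] {n : ι → ℕ}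
  {P : HeightOneSpectrum (𝓞 F) → ι → ℚ[X]}

/-- the matrix representation -/
noncomputable def matRep {m : ℕ} {K : Type} [Field K] {G : Type} [Group G]
    (ρ : Representation K G (Fin m → K)) : G →* GL (Fin m) K :=
  (((LinearMap.toMatrixAlgEquiv' : ((Fin m → K) →ₗ[K] (Fin m → K)) ≃ₐ[K] Matrix (Fin m) (Fin m) K) :
    ((Fin m → K) →ₗ[K] (Fin m → K)) →* Matrix (Fin m) (Fin m) K).comp ρ).toHomUnits

theorem coe_matRep {m : ℕ} {K : Type} [Field K] {G : Type} [Group G]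
    (ρ : Representation K G (Fin m → K)) (g : G) :
    ((matRep ρ g : GL (Fin m) K) : Matrix (Fin m) (Fin m) K) = LinearMap.toMatrix' (ρ g) := rfl

theorem act_matRep {m : ℕ} {K : Type} [Field K] {G : Type} [Group G]
    (ρ : Representation K G (Fin m → K)) (g : G) (x : Fin m → K) :
    act (matRep ρ) g x = ρ g x := by
  rw [act_apply, coe_matRep, ← Matrix.toLin'_apply, Matrix.toLin'_toMatrix']

theorem continuous_matRep {m : ℕ} {K : Type} [NormedField K] {G : Type} [Group G]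
    [TopologicalSpace G] [IsTopologicalGroup G] (ρ : Representation K G (Fin m → K))
    (h : Continuous fun g => LinearMap.toMatrix' (ρ g)) : Continuous (matRep ρ) := by
  rw [Units.continuous_iff]
  refine ⟨h, ?_⟩
  have h1 : (fun g => (((matRep ρ g)⁻¹ : GL (Fin m) K) : Matrix (Fin m) (Fin m) K)) =
      fun g => LinearMap.toMatrix' (ρ g⁻¹) := by
    funext g
    rw [← map_inv, coe_matRep]
  exact h1 ▸ h.comp continuous_inv

/-- A stable isotropic subspace is zero. -/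
theorem isotropic_zero (R : Realizations n Gal(AlgebraicClosure F/F)) {w : ℕ} (hR : IsSystem R w)
    (ℓ : ℕ) [hℓ : Fact ℓ.Prime] (T : Set ℕ) (hT3 : 3 ≤ T.encard)
    (hT : ∀ p ∈ T, p.Prime ∧ p ≠ ℓ ∧ UnramifiedIn F p)
    (hmonic : ∀ p ∈ T, ∀ v, Above v p → ∀ i, (P v i).Monic)
    (hgood : ∀ p ∈ T, ∀ v, Above v p → GoodAt R w v (P v))
    {p₀ : ℕ} (hp₀ : p₀ ∈ T) (hfree : RelationFree P p₀) (i : ι)
    (U : Submodule ℚ_[ℓ] (Fin (n i) → ℚ_[ℓ])) (hU : ∀ g, ∀ x ∈ U, R.ρ ℓ i g x ∈ U)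
    (hiso : ∀ x ∈ U, ∀ y ∈ U, R.ω ℓ i x y = 0) : U = ⊥ := by
  classical
  by_contra hne
  have hk0 : 0 < finrank ℚ_[ℓ] U := by
    rw [Nat.pos_iff_ne_zero]
    intro h
    exact hne (Submodule.finrank_eq_zero.1 h)
  have hℓv : ∀ p ∈ T, ∀ v : HeightOneSpectrum (𝓞 F), Above v p → ¬ Above v ℓ := by
    intro p hp v hv hv'
    have hcop : Nat.Coprime p ℓ := (Nat.coprime_primes (hT p hp).1 hℓ.out).2 (hT p hp).2.1
    have h1 : IsCoprime (p : ℤ) (ℓ : ℤ) := Nat.isCoprime_iff_coprime.2 hcop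
    obtain ⟨a, b, hab⟩ := h1
    have h2 : (a : 𝓞 F) * (p : 𝓞 F) + (b : 𝓞 F) * (ℓ : 𝓞 F) = 1 := by
      have := congrArg (fun z : ℤ => (z : 𝓞 F)) hab
      push_cast at this
      exact this
    apply v.isPrime.ne_top
    rw [Ideal.eq_top_iff_one, ← h2]
    exact Ideal.add_mem _ (Ideal.mul_mem_left _ _ hv) (Ideal.mul_mem_left _ _ hv')
  have hgood' : ∀ p ∈ T, ∀ v : HeightOneSpectrum (𝓞 F), (p : 𝓞 F) ∈ v.asIdeal →
      ∀ Q : Ideal (OO F), Q.IsPrime → cm Q = v.asIdeal →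
        (∀ g, InInertia Q g → matRep (R.ρ ℓ i) g = 1) ∧
        ∀ g, FrobAt (Ideal.absNorm v.asIdeal) Q g →
          ((matRep (R.ρ ℓ i) g⁻¹ : GL (Fin (n i)) ℚ_[ℓ]) :
            Matrix (Fin (n i)) (Fin (n i)) ℚ_[ℓ]).charpoly = (P v i).map (algebraMap ℚ ℚ_[ℓ]) := by
    intro p hp v hv Q hQ hQv
    have h1 := hgood p hp v hv
    refine ⟨fun g hg => ?_, fun g hg => ?_⟩
    · apply Units.ext
      rw [coe_matRep, h1.unramified ℓ (hℓv p hp v hv) i Q ⟨hQ, hQv⟩ g hg]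
      exact LinearMap.toMatrix'_one
    · rw [coe_matRep, ← h1.frobenius ℓ (hℓv p hp v hv) i Q ⟨hQ, hQv⟩ g hg,
        ← LinearMap.toMatrix_eq_toMatrix', LinearMap.charpoly_toMatrix]
  have hpure' : ∀ p ∈ T, ∀ v : HeightOneSpectrum (𝓞 F), (p : 𝓞 F) ∈ v.asIdeal →
      ∀ a ∈ ((P v i).map (algebraMap ℚ ℂ)).roots,
        ‖a‖ ^ 2 = (Ideal.absNorm v.asIdeal : ℝ) ^ (w : ℤ) := by
    intro p hp v hv a ha
    have := (hgood p hp v hv).pure i a ha
    rw [zpow_natCast]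
    exact this
  obtain ⟨A, hA, hprod⟩ := Pool.Agent.Y115.M.exists_A (E := ℚ) ℓ (matRep (R.ρ ℓ i))
    (continuous_matRep _ (hR.continuous ℓ i)) (w : ℤ) (algebraMap ℚ ℚ_[ℓ]) (algebraMap ℚ ℂ) T hT3
    (fun p hp => ⟨(hT p hp).1, (hT p hp).2.1, (hT p hp).2.2⟩) (fun v => P v i) hgood' hpure' U
    (fun g x hx => by
      rw [Submodule.mem_comap, act_matRep]
      exact hU g x hx)
  obtain ⟨N, hN, hprodN⟩ := hprod p₀ hp₀
  refine not_iso (hT p₀ hp₀).1 hfree (hmonic p₀ hp₀) i w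
    (fun v hv a ha => (hgood p₀ hp₀ v hv).pure i a ha) hk0 A (fun v hv => ?_) hN hprodN
  obtain ⟨h1, -, h3⟩ := hA p₀ hp₀ v hv
  refine ⟨h1, h3 (R.ω ℓ i) ?_ ?_ hiso⟩
  · intro x hx
    apply R.nondeg ℓ i x
    intro y
    have h5 := R.alt ℓ i (x + y)
    simp only [map_add, LinearMap.add_apply, R.alt, zero_add, add_zero] at h5
    rw [hx y, add_zero] at h5
    exact h5
  · intro g x y
    rw [act_matRep, act_matRep, R.sim]
    congr 1
    have h5 := hR.similitude ℓ g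
    rw [_root_.zpow_neg, zpow_natCast]
    exact eq_inv_of_mul_eq_one_left h5

end Pool.Agent.Y114.GF
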