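import Mathlib
import Pool.Agent.Y114.GF.Isotropic
import Pool.Agent.Y114.GF.Clifford
import Pool.Agent.Y114.AP.Sum
import Pool.Agent.Y114.AP.Charpoly

/-!
# Semisimplicity of the sum, nondegenerate subspaces
-/

set_option autoImplicit false
set_option linter.unusedSectionVars false

namespace Pool.Agent.Y114.GF

open NumberField Polynomial Module Pool.Agent.Y114.TF Pool.Agent.Y114.AP Pool.Agent.H204R3.GP

section forms

variable {k : Type} [Field k] [CharZero k] {V : Type} [AddCommGroup V] [Module k V]
  [FiniteDimensional k V] {Γ : Type} [Group Γ] (ρ : Representation k Γ V) (χ : Γ →* k)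
  (ω : V →ₗ[k] V →ₗ[k] k)

/-- A nondegenerate alternating form lives in even dimension. -/
theorem even_of_alt (halt : ∀ v, ω v v = 0) (hnd : ∀ u, (∀ v, ω v u = 0) → u = 0) :
    Even (finrank k V) := by
  classical
  let b := Module.finBasis k V
  let J : Matrix (Fin (finrank k V)) (Fin (finrank k V)) k := fun i j => ω (b i) (b j)
  have hanti : ∀ u v, ω u v = -ω v u := by
    intro u v
    have h1 := halt (u + v)
    simp only [map_add, LinearMap.add_apply, halt, zero_add, add_zero] at h1
    exact eq_neg_of_add_eq_zero_left (by rw [← h1]; ring)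
  have hJT : J.transpose = -J := by
    ext i j
    exact hanti (b j) (b i)
  have hdet : J.det ≠ 0 := by
    intro h0
    obtain ⟨v, hv, hJv⟩ := Matrix.exists_mulVec_eq_zero_iff.2 h0
    apply hv
    have h1 : ∑ j, v j • b j = 0 := by
      apply hnd
      intro x
      have hlin : ω.flip (∑ j, v j • b j) = 0 := by
        refine b.ext fun i => ?_
        rw [LinearMap.flip_apply, LinearMap.zero_apply, map_sum]
        have h2 := congrFun hJv i
        rw [Pi.zero_apply] at h2
        rw [← h2]
        refine Finset.sum_congr rfl fun j _ => ?_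
        rw [map_smul, smul_eq_mul, mul_comm]
      exact LinearMap.congr_fun hlin x
    funext j
    exact (Fintype.linearIndependent_iff.1 b.linearIndependent) v h1 j
  by_contra hodd
  rw [Nat.not_even_iff_odd] at hodd
  apply hdet
  have h1 : J.det = -J.det := by
    have h2 := congrArg Matrix.det hJT
    rw [Matrix.det_transpose, Matrix.det_neg, Fintype.card_fin, hodd.neg_one_pow, neg_one_mul] at h2
    exact h2
  have h3 : (2 : k) * J.det = 0 := by linear_combination h1
  exact (mul_eq_zero.1 h3).resolve_left two_ne_zero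

/-- If no nonzero stable subspace is isotropic, the orthogonal complement of a stable subspace is a
stable complement, and the subspace has even dimension. -/
theorem orth_compl (halt : ∀ v, ω v v = 0) (hnd : ∀ u, (∀ v, ω v u = 0) → u = 0)
    (hωρ : ∀ s u v, ω (ρ s u) (ρ s v) = χ s * ω u v)
    (hiso : ∀ U : Submodule k V, (∀ g, ∀ x ∈ U, ρ g x ∈ U) → (∀ x ∈ U, ∀ y ∈ U, ω x y = 0) → U = ⊥)
    (W : Submodule k V) (hW : ∀ g, ∀ x ∈ W, ρ g x ∈ W) :
    Even (finrank k W) ∧ ∃ W' : Submodule k V, (∀ g, ∀ x ∈ W', ρ g x ∈ W') ∧ IsCompl W W' := by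
  have hanti : ∀ u v, ω u v = -ω v u := by
    intro u v
    have h1 := halt (u + v)
    simp only [map_add, LinearMap.add_apply, halt, zero_add, add_zero] at h1
    exact eq_neg_of_add_eq_zero_left (by rw [← h1]; ring)
  have hndL : ∀ u, (∀ v, ω u v = 0) → u = 0 := by
    intro u hu
    apply hnd
    intro v
    rw [hanti, hu, neg_zero]
  let B : LinearMap.BilinForm k V := ω
  have hrefl : B.IsRefl := by
    intro x y h
    change ω y x = 0
    rw [hanti, (show ω x y = 0 from h), neg_zero]
  have hBnd : B.Nondegenerate := ⟨hndL, hnd⟩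
  have hstab : ∀ g, ∀ x ∈ B.orthogonal W, ρ g x ∈ B.orthogonal W := by
    intro g x hx
    rw [LinearMap.BilinForm.mem_orthogonal_iff] at hx ⊢
    intro y hy
    change ω y (ρ g x) = 0
    have h1 : ρ g⁻¹ y ∈ W := hW g⁻¹ y hy
    have h2 := hωρ g (ρ g⁻¹ y) x
    rw [GF.rho_inv_mul] at h2
    rw [h2, (show ω (ρ g⁻¹ y) x = 0 from hx _ h1), mul_zero]
  have hdisj : W ⊓ B.orthogonal W = ⊥ := by
    refine hiso _ (fun g x hx => ⟨hW g x hx.1, hstab g x hx.2⟩) fun x hx y hy => ?_
    exact (LinearMap.BilinForm.mem_orthogonal_iff.1 hy.2) x hx.1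
  have hcompl : IsCompl W (B.orthogonal W) := by
    rw [LinearMap.BilinForm.isCompl_orthogonal_iff_disjoint hrefl, disjoint_iff]
    exact hdisj
  refine ⟨?_, B.orthogonal W, hstab, hcompl⟩
  let ωW : W →ₗ[k] W →ₗ[k] k := ω.compl₁₂ W.subtype W.subtype
  refine even_of_alt ωW (fun v => halt _) fun u hu => ?_
  have h1 : (u : V) ∈ W ⊓ B.orthogonal W := by
    refine ⟨u.2, ?_⟩
    rw [SetLike.mem_coe, LinearMap.BilinForm.mem_orthogonal_iff]
    intro y hy
    exact hu ⟨y, hy⟩
  rw [hdisj, Submodule.mem_bot] at h1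
  exact Subtype.ext h1

end forms

section sum

variable {k : Type} [Field k] [CharZero k] {ι : Type} [Fintype ι] [DecidableEq ι]
  {V : ι → Type} [∀ i, AddCommGroup (V i)] [∀ i, Module k (V i)] [∀ i, FiniteDimensional k (V i)]
  {Γ : Type} [Group Γ] (ρ : ∀ i, Representation k Γ (V i))

/-- The sum of semisimple representations with disjoint spectra of one element is semisimple. -/
theorem semi_sum (γ : Γ) (hcop : ∀ i j, i ≠ j → IsCoprime (ρ i γ).charpoly (ρ j γ).charpoly)
    (hss : ∀ i, Semi (ρ i) ⊤) : Semi (sumRep ρ) ⊤ := by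
  have hsingle : ∀ (g : Γ) (i : ι) (w : V i),
      sumRep ρ g (Pi.single i w) = Pi.single i (ρ i g w) := by
    intro g i w
    funext j
    change ρ j g (Pi.single (M := V) i w j) = _
    by_cases hj : j = i
    · subst hj
      rw [Pi.single_eq_same, Pi.single_eq_same]
    · rw [Pi.single_eq_of_ne hj, Pi.single_eq_of_ne hj, map_zero]
  intro U hU
  have hproj : ∀ i, ∀ u ∈ U, Pi.single i (u i) ∈ U := by
    intro i u hu
    obtain ⟨e, he⟩ := exists_proj' hcop i
    rw [← he]
    exact stable_aeval (fun u hu => hU γ trivial u hu) e u hu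
  let W : ∀ i, Submodule k (V i) := fun i => U.comap (LinearMap.single k V i)
  have hW : ∀ i, Stab (ρ i) ⊤ (W i) := by
    intro i g _ w hw
    change Pi.single i (ρ i g w) ∈ U
    rw [← hsingle]
    exact hU g trivial _ hw
  have hUW : ∀ x : ∀ i, V i, x ∈ U ↔ ∀ i, x i ∈ W i := by
    intro x
    refine ⟨fun hx i => hproj i x hx, fun hx => ?_⟩
    have hx' : x = ∑ i, Pi.single i (x i) := by
      funext j
      rw [Finset.sum_apply, Finset.sum_eq_single j]
      · rw [Pi.single_eq_same]
      · intro i _ hij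
        rw [Pi.single_eq_of_ne hij.symm]
      · intro h
        exact absurd (Finset.mem_univ _) h
    rw [hx']
    exact sum_mem fun i _ => hx i
  choose W' hW' hc using fun i => hss i (W i) (hW i)
  refine ⟨Submodule.pi Set.univ W', fun g _ u hu => ?_, ?_⟩
  · rw [Submodule.mem_pi] at hu ⊢
    intro i _
    exact hW' i g trivial _ (hu i trivial)
  · constructor
    · rw [Submodule.disjoint_def]
      intro x hx hx'
      funext i
      have h1 := (hc i).inf_eq_bot
      have h2 : x i ∈ W i ⊓ W' i := ⟨(hUW x).1 hx i, (Submodule.mem_pi.1 hx') i trivial⟩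
      rw [h1, Submodule.mem_bot] at h2
      exact h2
    · rw [codisjoint_iff, eq_top_iff]
      intro x _
      have h1 : ∀ i, ∃ a ∈ W i, ∃ b ∈ W' i, a + b = x i := by
        intro i
        have : x i ∈ W i ⊔ W' i := by rw [(hc i).sup_eq_top]; trivial
        exact Submodule.mem_sup.1 this
      choose a ha b hb hab using h1
      have h2 : x = a + b := funext fun i => (hab i).symm
      rw [h2]
      refine Submodule.add_mem_sup ((hUW a).2 ha) ?_
      rw [Submodule.mem_pi]
      exact fun i _ => hb i

theorem finiteIndexSemisimple_of {V : Type} [AddCommGroup V] [Module k V]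
    [FiniteDimensional k V] (ρ : Representation k Γ V) (h : Semi ρ ⊤) :
    FiniteIndexSemisimple ρ := by
  intro Δ hΔ U hU
  obtain ⟨U', hU', hc⟩ := semi_finiteIndex ρ h Δ U hU
  exact ⟨U', hU', hc⟩

end sum

end Pool.Agent.Y114.GF
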