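import Mathlib
import Pool.Agent.Y114.GF.Compl

/-!
# Semisimplicity and generation in degree two, for every prime `ℓ`
-/

set_option autoImplicit false
set_option linter.unusedSectionVars false

namespace Pool.Agent.Y114.GF

open NumberField IsDedekindDomain Polynomial Module Pool.Agent.Y114.TF Pool.Agent.Y114.AP
open Pool.Agent.W569.FM Pool.Agent.W571.FM Pool.Agent.Y115.R Pool.Agent.Y115.T Pool.Agent.Y115.Chi
open Pool.Agent.H204R3.GP Pool.Agent.H204R3.SP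

variable {F : Type} [Field F] [NumberField F] {ι : Type} [Fintype ι] {n : ι → ℕ}
  {P : HeightOneSpectrum (𝓞 F) → ι → ℚ[X]}

theorem not_above_of_ne {p ℓ : ℕ} (hp : p.Prime) (hℓ : ℓ.Prime) (hne : p ≠ ℓ)
    {v : HeightOneSpectrum (𝓞 F)} (hv : Above v p) : ¬ Above v ℓ := by
  intro hv'
  have hcop : Nat.Coprime p ℓ := (Nat.coprime_primes hp hℓ).2 hne
  have h1 : IsCoprime (p : ℤ) (ℓ : ℤ) := Nat.isCoprime_iff_coprime.2 hcop
  obtain ⟨a, b, hab⟩ := h1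
  have h2 : (a : 𝓞 F) * (p : 𝓞 F) + (b : 𝓞 F) * (ℓ : 𝓞 F) = 1 := by
    have := congrArg (fun z : ℤ => (z : 𝓞 F)) hab
    push_cast at this
    exact this
  apply v.isPrime.ne_top
  rw [Ideal.eq_top_iff_one, ← h2]
  exact Ideal.add_mem _ (Ideal.mul_mem_left _ _ hv) (Ideal.mul_mem_left _ _ hv')

/-- A geometric Frobenius element. -/
theorem exists_frobenius (R : Realizations n Gal(AlgebraicClosure F/F)) {w : ℕ}
    (hR : IsSystem R w) (v : HeightOneSpectrum (𝓞 F)) (hgood : GoodAt R w v (P v)) :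
    ∃ γ : Gal(AlgebraicClosure F/F), ∀ (ℓ : ℕ) [Fact ℓ.Prime], ¬ Above v ℓ →
      R.χ ℓ γ = ((q v ^ w : ℕ) : ℚ_[ℓ]) ∧
        ∀ i, (R.ρ ℓ i γ).charpoly = (P v i).map (algebraMap ℚ ℚ_[ℓ]) := by
  obtain ⟨Q, σ, hQ, hQv, hσ⟩ := frob_cm v
  refine ⟨σ⁻¹, fun ℓ _ hℓ => ⟨?_, fun i => ?_⟩⟩
  · have hℓQ : (ℓ : OO F) ∉ Q := by
      rw [← natCast_mem_cm, hQv]
      exact hℓ
    have h1 := chi_frob (ℓ := ℓ) hQ.isPrime hℓQ hσ
    have h2 := hR.similitude ℓ σ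
    have h3 : ((cyclotomicCharacter (AlgebraicClosure F) ℓ σ : ℤ_[ℓ]) : ℚ_[ℓ]) = (q v : ℚ_[ℓ]) := by
      have h4 := congrArg (fun z : ℤ_[ℓ] => (z : ℚ_[ℓ])) h1
      simp only [PadicInt.coe_natCast] at h4
      exact h4
    rw [h3] at h2
    have h5 : R.χ ℓ σ⁻¹ * R.χ ℓ σ = 1 := by rw [← map_mul, inv_mul_cancel, map_one]
    calc R.χ ℓ σ⁻¹ = R.χ ℓ σ⁻¹ * (R.χ ℓ σ * (q v : ℚ_[ℓ]) ^ w) := by rw [h2, mul_one]
      _ = (q v : ℚ_[ℓ]) ^ w := by rw [← mul_assoc, h5, one_mul]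
      _ = _ := by push_cast; rfl
  · exact hgood.frobenius ℓ hℓ i Q ⟨hQ.isPrime, hQv⟩ σ hσ

theorem q_pow_ne_zero (v : HeightOneSpectrum (𝓞 F)) (w : ℕ) : q v ^ w ≠ 0 := by
  apply pow_ne_zero
  unfold q
  rw [Ne, Ideal.absNorm_eq_zero_iff]
  exact v.ne_bot

/-- The hypotheses at one prime `ℓ`. -/
structure Data (R : Realizations n Gal(AlgebraicClosure F/F)) (w : ℕ)
    (P : HeightOneSpectrum (𝓞 F) → ι → ℚ[X]) (T : Set ℕ) (ℓ p₀ : ℕ) : Prop where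
  sys : IsSystem R w
  ℓprime : ℓ.Prime
  three : 3 ≤ (T \ {ℓ}).encard
  prime : ∀ p ∈ T, p.Prime ∧ UnramifiedIn F p
  good : ∀ p ∈ T, ∀ v, Above v p → GoodAt R w v (P v)
  mem : p₀ ∈ T
  ne : p₀ ≠ ℓ
  free : RelationFree P p₀

variable {R : Realizations n Gal(AlgebraicClosure F/F)} {w : ℕ} {T : Set ℕ} {ℓ p₀ : ℕ}

theorem Data.monic (D : Data R w P T ℓ p₀) : ∀ p ∈ T \ {ℓ}, ∀ v, Above v p → ∀ i, (P v i).Monic := by
  intro p hp v hv i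
  have hℓ : Fact ℓ.Prime := ⟨D.ℓprime⟩
  obtain ⟨γ, hγ⟩ := exists_frobenius R D.sys v (D.good p hp.1 v hv)
  have h1 := (hγ ℓ (not_above_of_ne (D.prime p hp.1).1 D.ℓprime hp.2 hv)).2 i
  have h2 : ((P v i).map (algebraMap ℚ ℚ_[ℓ])).Monic := by
    rw [← h1]
    exact LinearMap.charpoly_monic _
  exact (Polynomial.monic_map_iff).1 h2

theorem Data.orth [hℓ : Fact ℓ.Prime] (D : Data R w P T ℓ p₀) (i : ι)
    (W : Submodule ℚ_[ℓ] (Fin (n i) → ℚ_[ℓ])) (hW : ∀ g, ∀ x ∈ W, R.ρ ℓ i g x ∈ W) :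
    Even (finrank ℚ_[ℓ] W) ∧ ∃ W' : Submodule ℚ_[ℓ] (Fin (n i) → ℚ_[ℓ]),
      (∀ g, ∀ x ∈ W', R.ρ ℓ i g x ∈ W') ∧ IsCompl W W' := by
  refine orth_compl (R.ρ ℓ i) (R.χ ℓ) (R.ω ℓ i) (R.alt ℓ i) (R.nondeg ℓ i) (R.sim ℓ i) ?_ W hW
  intro U hU hiso
  exact isotropic_zero (P := P) R D.sys ℓ (T \ {ℓ}) D.three
    (fun p hp => ⟨(D.prime p hp.1).1, hp.2, (D.prime p hp.1).2⟩) D.monic
    (fun p hp => D.good p hp.1) (p₀ := p₀) ⟨D.mem, D.ne⟩ D.free i U hU hiso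

theorem Data.coprime [Fact ℓ.Prime] (D : Data R w P T ℓ p₀) {v : HeightOneSpectrum (𝓞 F)}
    (hv : Above v p₀) {k : Type} [Field k] [CharZero k] {i j : ι} (hij : i ≠ j) :
    IsCoprime ((P v i).map (algebraMap ℚ k)) ((P v j).map (algebraMap ℚ k)) := by
  classical
  refine IsCoprime.map ?_ (Polynomial.mapRingHom (algebraMap ℚ k))
  have hsf := (D.free.1 v hv).1
  have hdvd : P v i * P v j ∣ ∏ i, P v i := by
    rw [← Finset.mul_prod_erase Finset.univ (fun i => P v i) (Finset.mem_univ i)]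
    exact mul_dvd_mul_left _ (Finset.dvd_prod_of_mem _ (Finset.mem_erase.2
      ⟨hij.symm, Finset.mem_univ j⟩))
  have h1 := hsf.squarefree_of_dvd hdvd
  have h2 : (P v i * P v j).Separable := PerfectField.separable_iff_squarefree.2 h1
  exact h2.isCoprime

theorem Data.main (D : Data R w P T ℓ p₀) : ∃ _ : Fact ℓ.Prime,
    FiniteIndexSemisimple (sumRep (R.ρ ℓ)) ∧
      HomsGeneratedInDegreeTwo (sumRep (R.ρ ℓ)) (R.χ ℓ) (sumForm (R.ω ℓ)) := by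
  classical
  have hℓ : Fact ℓ.Prime := ⟨D.ℓprime⟩
  refine ⟨hℓ, ?_⟩
  obtain ⟨v, hv⟩ := exists_above (F := F) (D.prime p₀ D.mem).1
  obtain ⟨γ, hγ⟩ := exists_frobenius R D.sys v (D.good p₀ D.mem v hv)
  obtain ⟨hχ, hch⟩ := hγ ℓ (not_above_of_ne (D.prime p₀ D.mem).1 D.ℓprime D.ne hv)
  have hss : FiniteIndexSemisimple (sumRep (R.ρ ℓ)) := by
    apply finiteIndexSemisimple_of
    refine semi_sum (R.ρ ℓ) γ (fun i j hij => ?_) fun i W hW => ?_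
    · rw [hch, hch]
      exact D.coprime hv hij
    · obtain ⟨-, W', hW', hc⟩ := D.orth i W fun g => hW g trivial
      exact ⟨W', fun g _ => hW' g, hc⟩
  refine ⟨hss, ?_⟩
  have hSS : ∀ Δ : Subgroup Gal(AlgebraicClosure F/F), Δ.FiniteIndex →
      SemiUnder (sumRep (R.ρ ℓ) '' (Δ : Set Gal(AlgebraicClosure F/F))) := by
    intro Δ hΔ U hU
    obtain ⟨U', h1, h2⟩ := hss Δ hΔ U (fun s hs u hu => hU _ ⟨s, hs, rfl⟩ u hu)
    refine ⟨U', ?_, h2⟩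
    rintro _ ⟨s, hs, rfl⟩ u hu
    exact h1 s hs u hu
  have hchar : (sumRep (R.ρ ℓ) γ).charpoly = (∏ i, P v i).map (algebraMap ℚ ℚ_[ℓ]) := by
    rw [sumRep_apply, charpoly_piEnd', Polynomial.map_prod]
    exact Finset.prod_congr rfl fun i _ => hch i
  refine homs_generated (sumRep (R.ρ ℓ)) (R.χ ℓ) (sumForm (R.ω ℓ)) (sumForm_alt _ (R.alt ℓ))
    (sumForm_nondeg _ (R.nondeg ℓ)) (sumForm_sim (R.ρ ℓ) (R.χ ℓ) (R.ω ℓ) (R.sim ℓ)) fun m φ hφ => ?_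
  refine tate_of_free D.free hv (D.monic p₀ ⟨D.mem, D.ne⟩ v hv) (q v ^ w) (q_pow_ne_zero v w)
    (fun i a ha => ?_) (sumRep (R.ρ ℓ)) (R.χ ℓ) (sumForm (R.ω ℓ)) (sumForm_alt _ (R.alt ℓ))
    (sumForm_nondeg _ (R.nondeg ℓ)) (sumForm_sim (R.ρ ℓ) (R.χ ℓ) (R.ω ℓ) (R.sim ℓ)) hSS γ hχ hchar
    φ hφ
  have := (D.good p₀ D.mem v hv).pure i a ha
  push_cast
  exact this

end Pool.Agent.Y114.GF
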