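import Mathlib
import Pool.Agent.Y114.GF.MainS
import Pool.Agent.Y114.AP.Defs
import Pool.Agent.Y114.AP.Pot
import Pool.Agent.Y114.AP.Tame2

/-!
# The Tate conjecture for every prime `ℓ`, with a place of large monodromy
-/

set_option autoImplicit false
set_option linter.unusedSectionVars false

namespace Pool.Agent.Y114.GF

open NumberField IsDedekindDomain Polynomial Module Pool.Agent.Y114.TF Pool.Agent.Y114.AP
open Pool.Agent.H204R3.GP Pool.Agent.H204R3.SP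

section defs

variable {ι : Type} {n : ι → ℕ} {Γ : Type} [Group Γ] (R : Realizations n Γ)

/-- At a place of residue characteristic `p` the monodromy operator `N` on the `i`-th
representation satisfies `N ^ m ≠ 0`: for some element `τ` (of the inertia group) and some `e`, for
all primes `ℓ ≠ p`, the element `τ ^ e` acts unipotently and the `m`-th power of `τ ^ e - 1` is not
zero. -/
def MonodromyAt (i : ι) (p m : ℕ) : Prop :=
  ∃ (τ : Γ) (e : ℕ), ∀ (ℓ : ℕ) [Fact ℓ.Prime], ℓ ≠ p →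
    IsNilpotent (R.ρ ℓ i (τ ^ e) - 1) ∧ (R.ρ ℓ i (τ ^ e) - 1) ^ m ≠ 0

end defs

variable {F : Type} [Field F] [NumberField F] {ι : Type} [Fintype ι] {n : ι → ℕ}
  {P : HeightOneSpectrum (𝓞 F) → ι → ℚ[X]}

theorem RelationFree.pow_inj {p : ℕ} (h : RelationFree P p) {v : HeightOneSpectrum (𝓞 F)}
    (hv : Above v p) {N : ℕ} (hN : 0 < N) {a b : ℂ} (ha : a ∈ complexRoots (∏ i, P v i))
    (hb : b ∈ complexRoots (∏ i, P v i)) (hb0 : b ≠ 0) (hab : a ^ N = b ^ N) : a = b := by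
  classical
  by_contra hne
  have h1 := h.single hv (fun z => if z = a then (N : ℤ) else if z = b then -N else 0) (by
    rw [← Finset.prod_subset (Finset.insert_subset ha (Finset.singleton_subset_iff.2 hb)),
      Finset.prod_pair hne]
    · rw [if_pos rfl, if_neg (Ne.symm hne), if_pos rfl, zpow_neg, zpow_natCast, zpow_natCast, hab]
      exact mul_inv_cancel₀ (pow_ne_zero _ hb0)
    · intro z _ hz
      rw [Finset.mem_insert, Finset.mem_singleton, not_or] at hz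
      rw [if_neg hz.1, if_neg hz.2, zpow_zero]) a ha
  have hNz : (N : ℤ) ≠ 0 := by exact_mod_cast hN.ne'
  rw [if_pos rfl, if_neg ((h.1 v hv).2 a ha)] at h1
  split_ifs at h1 with h3
  · have : (0 : ℤ) < N := by exact_mod_cast hN
    omega
  · exact hNz h1

variable {R : Realizations n Gal(AlgebraicClosure F/F)} {w : ℕ} {T : Set ℕ} {ℓ p₀ : ℕ}

theorem Data.irreducible [hℓ : Fact ℓ.Prime] (D : Data R w P T ℓ p₀) (i : ι)
    (hd : ∀ d, Even d → 0 < d → d < n i →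
      (∃ p, p ≠ ℓ ∧ MonodromyAt R i p (max d (n i - d))) ∨
        ∃ p o, p ≠ ℓ ∧ ¬ o ∣ d ∧ TameAt R i p o)
    (W : Submodule ℚ_[ℓ] (Fin (n i) → ℚ_[ℓ])) (hW : ∀ g, ∀ x ∈ W, R.ρ ℓ i g x ∈ W) :
    W = ⊥ ∨ W = ⊤ := by
  by_contra hcon
  rw [not_or] at hcon
  have hfr : finrank ℚ_[ℓ] (Fin (n i) → ℚ_[ℓ]) = n i := by simp
  have h1 : 0 < finrank ℚ_[ℓ] W := by
    rw [Nat.pos_iff_ne_zero, Ne, Submodule.finrank_eq_zero]
    exact hcon.1
  have h2 : finrank ℚ_[ℓ] W < n i := by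
    have := Submodule.finrank_lt hcon.2
    rwa [hfr] at this
  obtain ⟨heven, W', hW', hc⟩ := D.orth i W hW
  rcases hd _ heven h1 h2 with ⟨p, hp, τ, e, hτ⟩ | ⟨p, o, hp, ho, t, φ, q, E, hE, h3⟩
  · obtain ⟨hnil, hne⟩ := hτ ℓ hp.symm
    apply hne
    have hdim : finrank ℚ_[ℓ] W + finrank ℚ_[ℓ] W' = n i := by
      have := Submodule.finrank_add_eq_of_isCompl hc
      rwa [hfr] at this
    have hst : ∀ U : Submodule ℚ_[ℓ] (Fin (n i) → ℚ_[ℓ]), (∀ g, ∀ x ∈ U, R.ρ ℓ i g x ∈ U) →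
        finrank ℚ_[ℓ] U ≤ max (finrank ℚ_[ℓ] W) (n i - finrank ℚ_[ℓ] W) → ∀ u ∈ U,
        ((R.ρ ℓ i (τ ^ e) - 1) ^ max (finrank ℚ_[ℓ] W) (n i - finrank ℚ_[ℓ] W)) u = 0 := by
      intro U hU hle u hu
      have h4 : ∀ u ∈ U, (R.ρ ℓ i (τ ^ e) - 1) u ∈ U := by
        intro u hu
        rw [LinearMap.sub_apply, Module.End.one_apply]
        exact Submodule.sub_mem _ (hU _ u hu) hu
      have h5 := pow_finrank_restrict hnil h4 hu
      obtain ⟨c, hc⟩ := Nat.exists_eq_add_of_le hle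
      rw [hc, add_comm, pow_add, Module.End.mul_apply, h5, map_zero]
    refine LinearMap.ext fun x => ?_
    obtain ⟨a, ha, b, hb, rfl⟩ := Submodule.mem_sup.1
      (show x ∈ W ⊔ W' by rw [hc.sup_eq_top]; trivial)
    rw [map_add, hst W hW (le_max_left _ _) a ha, hst W' hW' ?_ b hb, add_zero]
    · rfl
    · refine le_trans ?_ (le_max_right _ _)
      omega
  · obtain ⟨h4, h5⟩ := h3 ℓ hp.symm
    apply ho
    refine tame_dvd (R.ρ ℓ i t) (R.ρ ℓ i φ) ?_ q ?_ o E hE h5 W (hW t) (hW φ)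
    · intro x y hxy
      have := congrArg (R.ρ ℓ i φ⁻¹) hxy
      rwa [GF.rho_mul_inv, GF.rho_mul_inv] at this
    · rw [← map_pow, ← h4, ← map_mul, ← map_mul, mul_assoc, inv_mul_cancel, mul_one]

theorem Data.tateAt (D : Data R w P T ℓ p₀)
    (hmon : ∀ i, ∃ p, p ≠ ℓ ∧ MonodromyAt R i p (n i / 2))
    (hd : ∀ i d, Even d → 0 < d → d < n i →
      (∃ p, p ≠ ℓ ∧ MonodromyAt R i p (max d (n i - d))) ∨
        ∃ p o, p ≠ ℓ ∧ ¬ o ∣ d ∧ TameAt R i p o) : R.TateAt ℓ := by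
  classical
  have hℓ : Fact ℓ.Prime := ⟨D.ℓprime⟩
  obtain ⟨v, hv⟩ := exists_above (F := F) (D.prime p₀ D.mem).1
  obtain ⟨γ, hγ⟩ := exists_frobenius R D.sys v (D.good p₀ D.mem v hv)
  obtain ⟨hχ, hch⟩ := hγ ℓ (not_above_of_ne (D.prime p₀ D.mem).1 D.ℓprime D.ne hv)
  have hmonic := D.monic p₀ ⟨D.mem, D.ne⟩ v hv
  have hpot : ∀ i (Δ : Subgroup Gal(AlgebraicClosure F/F)), Δ.FiniteIndex →
      (∀ U : Submodule ℚ_[ℓ] (Fin (n i) → ℚ_[ℓ]), (∀ g ∈ Δ, ∀ u ∈ U, R.ρ ℓ i g u ∈ U) →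
        U = ⊥ ∨ U = ⊤) ∧
      ∀ A : End ℚ_[ℓ] (Fin (n i) → ℚ_[ℓ]), (∀ g ∈ Δ, ∀ x, A (R.ρ ℓ i g x) = R.ρ ℓ i g (A x)) →
        ∃ c : ℚ_[ℓ], ∀ v, A v = c • v := by
    intro i Δ hΔ
    obtain ⟨p, hp, τ, e, hτ⟩ := hmon i
    obtain ⟨h7, h8⟩ := hτ ℓ hp.symm
    have hfr : finrank ℚ_[ℓ] (Fin (n i) → ℚ_[ℓ]) = n i := by simp
    rw [map_pow] at h7 h8
    exact potentially (R.ρ ℓ i) (D.irreducible i (hd i)) h7 (by rw [hfr]; exact h8) Δ hΔ
  -- the roots
  set f : ℚ[X] := ∏ i, P v i with hf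
  have hfm : f.Monic := monic_prod_of_monic _ _ fun i _ => hmonic i
  have hf0 : f ≠ 0 := hfm.ne_zero
  have hNF := numberField_rootField hf0
  have hchar : (sumRep (R.ρ ℓ) γ).charpoly = f.map (algebraMap ℚ ℚ_[ℓ]) := by
    rw [sumRep_apply, charpoly_piEnd', hf, Polynomial.map_prod]
    exact Finset.prod_congr rfl fun i _ => hch i
  obtain ⟨Ω, hΩ, ⟨jΩ⟩⟩ := exists_finite_ext ℚ_[ℓ] (rootField f)
  have ha0 : ∀ a ∈ complexRoots f, a ≠ 0 := by
    intro a ha h0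
    exact (D.free.1 v hv).2 a ha (by rw [h0, map_zero])
  let s : Finset Ω := (complexRoots f).attach.image fun x => jΩ ⟨x.1, mem_rootField x.2⟩
  have hinj : ∀ x y : {a // a ∈ complexRoots f}, jΩ ⟨x.1, mem_rootField x.2⟩ =
      jΩ ⟨y.1, mem_rootField y.2⟩ → x = y := by
    intro x y hxy
    have h1 := jΩ.injective hxy
    exact Subtype.ext (congrArg (fun z : rootField f => (z : ℂ)) h1)
  have hs : ∀ a ∈ s, aeval a (sumRep (R.ρ ℓ) γ).charpoly = 0 := by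
    intro a ha
    obtain ⟨x, -, rfl⟩ := Finset.mem_image.1 ha
    rw [hchar]
    have h0 : aeval (jΩ ⟨x.1, mem_rootField x.2⟩) (f.map (algebraMap ℚ ℚ_[ℓ])) =
        aeval (jΩ ⟨x.1, mem_rootField x.2⟩) f := by
      rw [← eval_map_algebraMap, Polynomial.map_map, ← eval_map_algebraMap]
      congr 2
    rw [h0]
    let y : rootField f →ₐ[ℚ] Ω := RingHom.equivRatAlgHom _ _ jΩ
    have h1 : aeval (⟨x.1, mem_rootField x.2⟩ : rootField f) f = 0 := by
      have h3 : (rootField f).val (aeval (⟨x.1, mem_rootField x.2⟩ : rootField f) f) = 0 := by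
        rw [← Polynomial.aeval_algHom_apply]
        exact (mem_complexRoots hf0).1 x.2
      exact (map_eq_zero (rootField f).val).1 h3
    have h2 := congrArg y h1
    rw [← Polynomial.aeval_algHom_apply, map_zero] at h2
    exact h2
  have hcard : s.card = (sumRep (R.ρ ℓ) γ).charpoly.natDegree := by
    rw [Finset.card_image_of_injective _ (fun x y h => hinj x y h), Finset.card_attach, hchar,
      Polynomial.natDegree_map]
    have h1 := map_eq_prod (D.free.1 v hv).1 hfm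
    have h2 := congrArg Polynomial.natDegree h1
    have h3 : (∏ a ∈ complexRoots f, (Polynomial.X - C a)).natDegree = (complexRoots f).card := by
      rw [Polynomial.natDegree_prod_of_monic _ _ fun a _ => monic_X_sub_C a]
      simp
    rw [← h3, ← Polynomial.natDegree_map (algebraMap ℚ ℂ)]
    exact h2.symm
  have hN : ∀ N : ℕ, 0 < N → ∀ a ∈ s, ∀ b ∈ s, a ^ N = b ^ N → a = b := by
    intro N hN a ha b hb hab
    obtain ⟨x, -, rfl⟩ := Finset.mem_image.1 ha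
    obtain ⟨y, -, rfl⟩ := Finset.mem_image.1 hb
    rw [← map_pow, ← map_pow] at hab
    have h1 := congrArg (fun z : rootField f => (z : ℂ)) (jΩ.injective hab)
    have h2 : x.1 = y.1 := by
      refine RelationFree.pow_inj D.free hv hN x.2 y.2 (ha0 _ y.2) ?_
      simpa using h1
    have h3 : x = y := Subtype.ext h2
    rw [h3]
  have hcop : ∀ i j, i ≠ j → IsCoprime (R.ρ ℓ i γ).charpoly (R.ρ ℓ j γ).charpoly := by
    intro i j hij
    rw [hch, hch]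
    exact D.coprime hv hij
  obtain ⟨hss, hcm⟩ := sum_main (R.ρ ℓ) γ hcop s hs hcard hN hpot
  refine ⟨hℓ, hss, ?_⟩
  have hSS : ∀ Δ : Subgroup Gal(AlgebraicClosure F/F), Δ.FiniteIndex →
      SemiUnder (sumRep (R.ρ ℓ) '' (Δ : Set Gal(AlgebraicClosure F/F))) := by
    intro Δ hΔ U hU
    obtain ⟨U', h1, h2⟩ := hss Δ hΔ U (fun s hs u hu => hU _ ⟨s, hs, rfl⟩ u hu)
    refine ⟨U', ?_, h2⟩
    rintro _ ⟨s, hs, rfl⟩ u hu
    exact h1 s hs u hu
  intro s₀ t₀ c₀ d₀ hst φ hφ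
  have hmain := homs_of (sumRep (R.ρ ℓ)) (R.χ ℓ) (sumForm (R.ω ℓ)) (sumForm_alt _ (R.alt ℓ))
    (sumForm_nondeg _ (R.nondeg ℓ)) (sumForm_sim (R.ρ ℓ) (R.χ ℓ) (R.ω ℓ) (R.sim ℓ))
    (Set.range (partForm (R.ω ℓ))) (fun m φ hφ => by
      have h1 := tate_of_free D.free hv hmonic (q v ^ w) (q_pow_ne_zero v w)
        (fun i a ha => by
          have := (D.good p₀ D.mem v hv).pure i a ha
          push_cast
          exact this) (sumRep (R.ρ ℓ)) (R.χ ℓ) (sumForm (R.ω ℓ)) (sumForm_alt _ (R.alt ℓ))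
        (sumForm_nondeg _ (R.nondeg ℓ)) (sumForm_sim (R.ρ ℓ) (R.χ ℓ) (R.ω ℓ) (R.sim ℓ)) hSS γ hχ
        hchar φ hφ
      refine Submodule.span_induction ?_ (Submodule.zero_mem _)
        (fun _ _ _ _ h1 h2 => Submodule.add_mem _ h1 h2) (fun c _ _ h => Submodule.smul_mem _ c h) h1
      rintro _ ⟨σ, B, hB, rfl⟩
      have h2 := mmG_mem_span σ (Set.range (partForm (R.ω ℓ))) B fun l =>
        tate2_mem_span (R.ρ ℓ) (R.χ ℓ) (R.ω ℓ) (R.alt ℓ) (R.nondeg ℓ) (R.sim ℓ)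
          (fun Δ hΔ A hA => hcm Δ hΔ A hA) (B l) (hB l)
      refine Submodule.span_mono ?_ h2
      rintro _ ⟨B', hB', rfl⟩
      exact ⟨σ, B', hB', rfl⟩) s₀ t₀ c₀ d₀ hst φ hφ
  refine Submodule.span_mono ?_ hmain
  rintro f' ⟨m, e, B, hB, hf'⟩
  choose u hu using hB
  refine ⟨m, e, u, fun x y => ?_⟩
  rw [hf']
  refine Finset.prod_congr rfl fun l _ => ?_
  rw [← hu l]

end Pool.Agent.Y114.GF
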